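import Mathlib

-- part Pool.Agent.Lib.MP_69386a_an.NullLag
section

/-!
The planar Jacobian is a null Lagrangian for Lipschitz maps, and a gluing lemma for Lipschitz
bounds.
-/

set_option autoImplicit false
open Filter Topology MeasureTheory Set Metric
open scoped NNReal ENNReal

namespace Pool.Agent.Lib.MP_69386a_an

/-- A function that is continuous on a convex set covered by finitely many closed sets, and
`L`-Lipschitz on each of them, is `L`-Lipschitz on the convex set. -/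
lemma lipschitzOnWith_of_closed_cover {E F ι : Type*} [NormedAddCommGroup E] [NormedSpace ℝ E]
    [NormedAddCommGroup F] {f : E → F} {C : Set E} (hC : Convex ℝ C) (hf : ContinuousOn f C)
    {I : Set ι} (hI : I.Finite) (S : ι → Set E) (hS : ∀ i ∈ I, IsClosed (S i))
    (hcov : C ⊆ ⋃ i ∈ I, S i) {L : ℝ≥0} (hL : ∀ i ∈ I, LipschitzOnWith L f (S i)) :
    LipschitzOnWith L f C := by
  refine LipschitzOnWith.of_dist_le_mul fun y hy x hx => ?_
  set γ : ℝ → E := fun t => x + t • (y - x) with hγ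
  have hγc : Continuous γ := by fun_prop
  have hγC : ∀ t ∈ Icc (0 : ℝ) 1, γ t ∈ C := fun t ht => hC.add_smul_sub_mem hx hy ht
  have hcont : ContinuousOn (fun t => ‖f (γ t) - f x‖) (Icc 0 1) :=
    ((hf.comp hγc.continuousOn hγC).sub continuousOn_const).norm
  have key := image_le_of_liminf_slope_right_le_deriv_boundary hcont
    (B := fun t => L * ‖y - x‖ * t) (B' := fun _ => L * ‖y - x‖) (by simp [hγ]) (by fun_prop)
    (fun t _ => by
      simpa using ((hasDerivAt_id t).const_mul (L * ‖y - x‖)).hasDerivWithinAt)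
    (fun t ht r hr => by
      have h1 : ∃ᶠ z in 𝓝[>] t, ∃ i ∈ I, γ z ∈ S i := by
        refine Eventually.frequently ?_
        filter_upwards [Ioo_mem_nhdsGT ht.2] with z hz
        have := hcov (hγC z ⟨ht.1.trans hz.1.le, hz.2.le⟩)
        simpa using this
      obtain ⟨i, hi, h2⟩ := (hI.frequently_exists.1 h1 : ∃ i ∈ I, ∃ᶠ z in 𝓝[>] t, γ z ∈ S i)
      have h3 : γ t ∈ S i :=
        (hS i hi).mem_of_frequently_of_tendsto h2
          ((hγc.tendsto t).mono_left nhdsWithin_le_nhds)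
      refine (h2.and_eventually self_mem_nhdsWithin).mono fun z hz => ?_
      have hzt : 0 < z - t := sub_pos.2 hz.2
      have h4 := (hL i hi).dist_le_mul _ hz.1 _ h3
      rw [dist_eq_norm, dist_eq_norm] at h4
      have h5 : γ z - γ t = (z - t) • (y - x) := by
        simp only [hγ]
        module
      rw [h5, norm_smul, Real.norm_of_nonneg hzt.le] at h4
      have h6 : ‖f (γ z) - f x‖ - ‖f (γ t) - f x‖ ≤ ‖f (γ z) - f (γ t)‖ := by
        have := norm_sub_norm_le (f (γ z) - f x) (f (γ t) - f x)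
        simpa using this
      refine lt_of_le_of_lt ?_ hr
      rw [slope_def_field, div_le_iff₀ hzt]
      nlinarith)
    (x := 1) (by simp)
  rw [dist_eq_norm, dist_eq_norm]
  simpa [hγ] using key

/-- The plane. -/
abbrev P : Type := ℝ × ℝ

lemma tendsto_double_quotient {u v : P → ℝ} {C D : ℝ≥0} (hu : LipschitzWith C u)
    (hv : LipschitzWith D v) (hc : HasCompactSupport u) (a b : P) :
    Tendsto (fun t : ℝ => ∫ x, (t⁻¹ * (u (x + t • a) - u x)) * (t⁻¹ * (v (x + t • b) - v x)))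
      (𝓝[>] 0) (𝓝 (∫ x, fderiv ℝ u x a * fderiv ℝ v x b)) := by
  let K := cthickening ‖a‖ (tsupport u)
  have hK : IsCompact K := IsCompact.cthickening hc
  have hq : ∀ {w : P → ℝ} {E : ℝ≥0}, LipschitzWith E w → ∀ (c x : P) (t : ℝ), 0 < t →
      |t⁻¹ * (w (x + t • c) - w x)| ≤ E * ‖c‖ := by
    intro w E hw c x t ht
    have h1 := hw.norm_sub_le (x + t • c) x
    rw [add_sub_cancel_left, norm_smul, Real.norm_of_nonneg ht.le, Real.norm_eq_abs] at h1
    rw [abs_mul, abs_of_pos (inv_pos.2 ht), inv_mul_le_iff₀ ht]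
    linarith
  apply tendsto_integral_filter_of_dominated_convergence
    (K.indicator (fun _ => (C * ‖a‖) * (D * ‖b‖)))
  · filter_upwards with t
    have := hu.continuous
    have := hv.continuous
    exact Continuous.aestronglyMeasurable (by fun_prop)
  · filter_upwards [Ioc_mem_nhdsGT zero_lt_one] with t ht
    filter_upwards with x
    by_cases hx : x ∈ K
    · rw [indicator_of_mem hx, Real.norm_eq_abs, abs_mul]
      exact mul_le_mul (hq hu a x t ht.1) (hq hv b x t ht.1) (abs_nonneg _) (by positivity)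
    · have A : u x = 0 := by
        rw [← Function.notMem_support]
        contrapose hx
        exact self_subset_cthickening _ (subset_tsupport _ hx)
      have B : u (x + t • a) = 0 := by
        rw [← Function.notMem_support]
        contrapose hx
        apply mem_cthickening_of_dist_le _ _ (‖a‖) (tsupport u) (subset_tsupport _ hx)
        simp only [dist_eq_norm, sub_add_cancel_left, norm_neg, norm_smul, Real.norm_eq_abs,
          abs_of_nonneg ht.1.le]
        exact mul_le_of_le_one_left (norm_nonneg a) ht.2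
      simp [A, B, indicator_of_notMem hx]
  · rw [integrable_indicator_iff hK.measurableSet]
    exact ContinuousOn.integrableOn_compact hK (by fun_prop)
  · filter_upwards [hu.ae_differentiableAt (μ := volume), hv.ae_differentiableAt (μ := volume)]
      with x hx hy
    have h1 := (hx.hasFDerivAt.hasLineDerivAt a).tendsto_slope_zero_right
    have h2 := (hy.hasFDerivAt.hasLineDerivAt b).tendsto_slope_zero_right
    exact h1.mul h2

/-- The Jacobian is a null Lagrangian. -/
lemma nullLagrangian {u v : P → ℝ} {C D : ℝ≥0} (hu : LipschitzWith C u)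
    (hv : LipschitzWith D v) (hc : HasCompactSupport u) (a b : P) :
    ∫ x, fderiv ℝ u x a * fderiv ℝ v x b = ∫ x, fderiv ℝ u x b * fderiv ℝ v x a := by
  have h1 := tendsto_double_quotient hu hv hc a b
  have h2 := tendsto_double_quotient hu hv hc (-b) (-a)
  simp only [map_neg, neg_mul_neg] at h2
  refine tendsto_nhds_unique h1 (h2.congr fun t => ?_)
  have hi : ∀ p q : P, Integrable (fun x => u (x + p) * v (x + q)) := by
    intro p q
    have := hu.continuous
    have := hv.continuous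
    refine Continuous.integrable_of_hasCompactSupport (by fun_prop) ?_
    exact (hc.comp_homeomorph (Homeomorph.addRight p)).mul_right
  have hs : ∀ p q : P, ∫ x, u (x + p) * v (x + q) = ∫ x, u x * v (x + (q - p)) := by
    intro p q
    rw [← integral_add_right_eq_self (fun x => u x * v (x + (q - p))) p]
    congr 1
    ext x
    congr 2
    abel
  have hexp : ∀ p q : P, ∫ x, (t⁻¹ * (u (x + p) - u x)) * (t⁻¹ * (v (x + q) - v x)) =
      t⁻¹ * t⁻¹ * ((∫ x, u x * v (x + (q - p))) - (∫ x, u x * v (x + -p)) -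
        (∫ x, u x * v (x + q)) + ∫ x, u x * v x) := by
    intro p q
    have e1 := hs p q
    have e2 := hs p 0
    have i1 := hi p q
    have i2 := hi p 0
    have i3 := hi 0 q
    have i4 := hi 0 0
    simp only [add_zero, zero_sub] at e2 i2 i3 i4
    have j1 : Integrable (fun x => u (x + p) * v (x + q) - u (x + p) * v x) := i1.sub i2
    have j2 : Integrable (fun x => u (x + p) * v (x + q) - u (x + p) * v x - u x * v (x + q)) :=
      j1.sub i3
    rw [← e1, ← e2, ← integral_sub i1 i2, ← integral_sub j1 i3,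
      ← integral_add j2 i4, ← integral_const_mul]
    congr 1
    ext x
    ring
  rw [hexp, hexp]
  have e1 : t • -a - t • -b = t • b - t • a := by module
  have e2 : -(t • -b) = t • b := by module
  have e3 : t • -a = -(t • a) := by module
  rw [e1, e2, e3]
  ring

lemma det_eq (L : P →L[ℝ] P) :
    L.det = (L (1, 0)).1 * (L (0, 1)).2 - (L (0, 1)).1 * (L (1, 0)).2 := by
  rw [ContinuousLinearMap.det, ← LinearMap.det_toMatrix (Module.Basis.finTwoProd ℝ),
    Matrix.det_fin_two]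
  simp [LinearMap.toMatrix_apply]

/-- The cut-off function: `1` for `‖x‖ ≤ 3/4`, `0` for `‖x‖ ≥ 7/8`. -/
noncomputable def cut (x : P) : ℝ := max 0 (min 1 (7 - 8 * ‖x‖))

lemma cut_nonneg (x : P) : 0 ≤ cut x := le_max_left _ _

lemma cut_le_one (x : P) : cut x ≤ 1 := max_le zero_le_one (min_le_left _ _)

lemma cut_eq_one {x : P} (hx : ‖x‖ ≤ 3 / 4) : cut x = 1 := by
  rw [cut, min_eq_left (by linarith), max_eq_right zero_le_one]

lemma cut_eq_zero {x : P} (hx : 7 / 8 ≤ ‖x‖) : cut x = 0 :=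
  max_eq_left ((min_le_right _ _).trans (by linarith))

lemma cut_lipschitz : LipschitzWith 8 cut := by
  have h1 : LipschitzWith 8 (fun x : P => 7 - 8 * ‖x‖) := by
    refine LipschitzWith.of_dist_le_mul fun x y => ?_
    have := abs_norm_sub_norm_le x y
    rw [Real.dist_eq, dist_eq_norm]
    have e : 7 - 8 * ‖x‖ - (7 - 8 * ‖y‖) = -8 * (‖x‖ - ‖y‖) := by ring
    rw [e, abs_mul]
    norm_num
    exact this
  exact (h1.const_min 1).const_max 0

lemma fderiv_cut_inner {x : P} (hx : ‖x‖ < 3 / 4) : fderiv ℝ cut x = 0 := by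
  have : cut =ᶠ[𝓝 x] fun _ => (1 : ℝ) := by
    filter_upwards [(isOpen_lt continuous_norm continuous_const).mem_nhds hx] with y hy
    exact cut_eq_one (le_of_lt hy)
  rw [this.fderiv_eq]
  simp

lemma fderiv_cut_outer {x : P} (hx : 7 / 8 < ‖x‖) : fderiv ℝ cut x = 0 := by
  have : cut =ᶠ[𝓝 x] fun _ => (0 : ℝ) := by
    filter_upwards [(isOpen_lt continuous_const continuous_norm).mem_nhds hx] with y hy
    exact cut_eq_zero (le_of_lt hy)
  rw [this.fderiv_eq]
  simp

/-- The boundary term `∂₁φ ∂₂g₂ - ∂₂φ ∂₁g₂`. -/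
noncomputable def W (x : P) (L : P →L[ℝ] P) : ℝ :=
  fderiv ℝ cut x (1, 0) * (L (0, 1)).2 - fderiv ℝ cut x (0, 1) * (L (1, 0)).2

lemma abs_W_le (x : P) (L : P →L[ℝ] P) : |W x L| ≤ 16 * ‖L‖ := by
  have h0 : ‖fderiv ℝ cut x‖ ≤ 8 := by
    simpa using norm_fderiv_le_of_lipschitz ℝ cut_lipschitz (x₀ := x)
  have n1 : ‖((1, 0) : P)‖ = 1 := by simp [Prod.norm_def]
  have n2 : ‖((0, 1) : P)‖ = 1 := by simp [Prod.norm_def]
  have h1 : ∀ e : P, ‖e‖ = 1 → |fderiv ℝ cut x e| ≤ 8 := fun e he => by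
    have := (fderiv ℝ cut x).le_opNorm e
    rw [he, mul_one, Real.norm_eq_abs] at this
    linarith
  have h2 : ∀ e : P, ‖e‖ = 1 → |(L e).2| ≤ ‖L‖ := fun e he => by
    have := L.le_opNorm e
    rw [he, mul_one] at this
    exact (norm_snd_le (L e)).trans this
  calc |W x L| ≤ |fderiv ℝ cut x (1, 0) * (L (0, 1)).2| +
        |fderiv ℝ cut x (0, 1) * (L (1, 0)).2| := abs_sub _ _
    _ ≤ 8 * ‖L‖ + 8 * ‖L‖ := by
        rw [abs_mul, abs_mul]
        gcongr
        exacts [h1 _ n1, h2 _ n2, h1 _ n2, h2 _ n1]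
    _ = 16 * ‖L‖ := by ring

lemma W_sub (x : P) (L M : P →L[ℝ] P) : W x L - W x M = W x (L - M) := by
  simp only [W, sub_apply, Prod.snd_sub]
  ring

/-- The integrand of the tested identity. -/
noncomputable def J (g : P → P) (x : P) : ℝ :=
  cut x * Real.cos (g x).1 * (fderiv ℝ g x).det + Real.sin (g x).1 * W x (fderiv ℝ g x)

lemma J_outer (g : P → P) {x : P} (hx : 7 / 8 < ‖x‖) : J g x = 0 := by
  simp [J, W, cut_eq_zero hx.le, fderiv_cut_outer hx]

lemma J_lipschitz {g : P → P} {C : ℝ≥0} (hg : LipschitzWith C g) :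
    Integrable (J g) ∧ ∫ x, J g x = 0 := by
  set u : P → ℝ := fun x => cut x * Real.sin (g x).1 with hu
  set v : P → ℝ := fun x => (g x).2 with hv
  have hvL : LipschitzWith C v := by
    have := LipschitzWith.prod_snd.comp hg
    rw [one_mul] at this
    exact this
  have hg1 : LipschitzWith C (fun x => (g x).1) := by
    have := LipschitzWith.prod_fst.comp hg
    rw [one_mul] at this
    exact this
  have huL : LipschitzWith (8 + C) u := by
    refine LipschitzWith.of_dist_le_mul fun x y => ?_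
    have h1 := cut_lipschitz.dist_le_mul x y
    have h2 := hg1.dist_le_mul x y
    have h3 := Real.abs_sin_sub_sin_le (g x).1 (g y).1
    rw [Real.dist_eq] at h1 h2 ⊢
    have e : u x - u y = (cut x - cut y) * Real.sin (g x).1 +
        cut y * (Real.sin (g x).1 - Real.sin (g y).1) := by
      simp only [hu]
      ring
    rw [e]
    refine (abs_add_le _ _).trans ?_
    rw [abs_mul, abs_mul, abs_of_nonneg (cut_nonneg y)]
    have h4 := Real.abs_sin_le_one (g x).1
    have h5 := cut_le_one y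
    have h6 := cut_nonneg y
    have h7 : |cut x - cut y| * |Real.sin (g x).1| ≤ |cut x - cut y| :=
      mul_le_of_le_one_right (abs_nonneg _) h4
    have h8 : cut y * |Real.sin (g x).1 - Real.sin (g y).1| ≤
        |Real.sin (g x).1 - Real.sin (g y).1| := mul_le_of_le_one_left (abs_nonneg _) h5
    push_cast at h1 ⊢
    linarith
  have hsupp : ∀ x, x ∉ closedBall (0 : P) (7 / 8) → u x = 0 := by
    intro x hx
    rw [mem_closedBall_zero_iff, not_le] at hx
    simp [hu, cut_eq_zero hx.le]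
  have hc : HasCompactSupport u := HasCompactSupport.intro (isCompact_closedBall _ _) hsupp
  have hint : ∀ a b : P, Integrable (fun x => fderiv ℝ u x a * fderiv ℝ v x b) := by
    intro a b
    have hm : AEStronglyMeasurable (fun x => fderiv ℝ u x a * fderiv ℝ v x b) volume :=
      ((measurable_fderiv_apply_const ℝ u a).mul
        (measurable_fderiv_apply_const ℝ v b)).aestronglyMeasurable
    refine Integrable.mono' (g := (closedBall (0 : P) (7 / 8)).indicator
      (fun _ => ((8 + C : ℝ≥0) * ‖a‖) * (C * ‖b‖))) ?_ hm (Eventually.of_forall fun x => ?_)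
    · rw [integrable_indicator_iff measurableSet_closedBall]
      exact ContinuousOn.integrableOn_compact (isCompact_closedBall _ _) (by fun_prop)
    · by_cases hx : x ∈ closedBall (0 : P) (7 / 8)
      · rw [indicator_of_mem hx, norm_mul]
        refine mul_le_mul (((fderiv ℝ u x).le_opNorm a).trans ?_)
          (((fderiv ℝ v x).le_opNorm b).trans ?_) (norm_nonneg _) (by positivity)
        · exact mul_le_mul_of_nonneg_right (norm_fderiv_le_of_lipschitz ℝ huL) (norm_nonneg _)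
        · exact mul_le_mul_of_nonneg_right (norm_fderiv_le_of_lipschitz ℝ hvL) (norm_nonneg _)
      · have : u =ᶠ[𝓝 x] fun _ => (0 : ℝ) := by
          filter_upwards [isClosed_closedBall.isOpen_compl.mem_nhds hx] with y hy
          exact hsupp y hy
        rw [indicator_of_notMem hx, this.fderiv_eq]
        simp
  have hae : J g =ᵐ[volume] fun x => fderiv ℝ u x (1, 0) * fderiv ℝ v x (0, 1) -
      fderiv ℝ u x (0, 1) * fderiv ℝ v x (1, 0) := by
    filter_upwards [hg.ae_differentiableAt (μ := volume),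
      cut_lipschitz.ae_differentiableAt (μ := volume)] with x hx hx'
    have d1 : HasFDerivAt (fun x => (g x).1)
        ((ContinuousLinearMap.fst ℝ ℝ ℝ).comp (fderiv ℝ g x)) x := hx.hasFDerivAt.fst
    have d2 : HasFDerivAt v ((ContinuousLinearMap.snd ℝ ℝ ℝ).comp (fderiv ℝ g x)) x :=
      hx.hasFDerivAt.snd
    have d3 : HasFDerivAt u _ x := hx'.hasFDerivAt.mul d1.sin
    rw [d3.fderiv, d2.fderiv, J, W, det_eq]
    simp
    ring
  refine ⟨((hint _ _).sub (hint _ _)).congr hae.symm, ?_⟩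
  rw [integral_congr_ae hae, integral_sub (hint _ _) (hint _ _),
    nullLagrangian huL hvL hc, sub_self]

/-- The same identity for maps that are Lipschitz on the square of half-side `15/16`. -/
lemma J_lipschitzOn {g : P → P} {C : ℝ≥0} (hg : LipschitzOnWith C g (closedBall 0 (15 / 16))) :
    Integrable (J g) ∧ ∫ x, J g x = 0 := by
  obtain ⟨g1, h1, e1⟩ := (LipschitzWith.prod_fst.comp_lipschitzOnWith hg).extend_real
  obtain ⟨g2, h2, e2⟩ := (LipschitzWith.prod_snd.comp_lipschitzOnWith hg).extend_real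
  have h3 := J_lipschitz (h1.prodMk h2)
  have e : J g = J (fun x => (g1 x, g2 x)) := by
    ext x
    by_cases hx : 7 / 8 < ‖x‖
    · rw [J_outer _ hx, J_outer _ hx]
    · have hx' : ‖x‖ < 15 / 16 := by linarith [not_lt.1 hx]
      have : g =ᶠ[𝓝 x] fun x => (g1 x, g2 x) := by
        filter_upwards [(isOpen_lt continuous_norm continuous_const).mem_nhds hx'] with y hy
        have hy' : y ∈ closedBall (0 : P) (15 / 16) := mem_closedBall_zero_iff.2 (le_of_lt hy)
        exact Prod.ext (e1 hy') (e2 hy')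
      rw [J, J, this.fderiv_eq, this.eq_of_nhds]
  rw [e]
  exact h3

end Pool.Agent.Lib.MP_69386a_an
end

-- part Pool.Agent.Lib.MP_69386a_an.Constr
section

/-!
A Ponomarev-type homeomorphism of the square with Jacobian one almost everywhere that maps a
null Cantor set onto a set of positive area: definition, continuity, injectivity.
-/

set_option autoImplicit false
open Filter Topology MeasureTheory Set Metric
open scoped NNReal ENNReal

namespace Pool.Agent.Lib.MP_69386a_an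

/-- Boundary stretch factor. -/
noncomputable def s (κ : ℝ) : ℝ := √(1 + κ)

/-- Radial stretch factor. -/
noncomputable def β (κ t : ℝ) : ℝ := √(1 + κ / (max (1 / 2) (min t 1)) ^ 2)

/-- The building block. -/
noncomputable def B (κ : ℝ) (x : P) : P := (β κ ‖x‖ - s κ) • x

/-- The two coordinates of the centres. -/
noncomputable def σ (b : Bool) : ℝ := if b then 1 / 4 else -(1 / 4)

/-- The centres of the four subsquares. -/
noncomputable def z (j : Bool × Bool) : P := (σ j.1, σ j.2)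

/-- The correction of level `k`. -/
noncomputable def T : ℕ → ℝ → P → P
  | 0, κ, x => B κ x
  | k + 1, κ, x => ∑ j : Bool × Bool, (1 / 4 : ℝ) • T k (4 * κ) ((4 : ℝ) • (x - z j))

/-- The map. -/
noncomputable def f (κ : ℝ) (x : P) : P := s κ • x + ∑' k, T k κ x

section
variable {κ : ℝ}

lemma s_sq (hκ : 0 ≤ κ) : s κ ^ 2 = 1 + κ := Real.sq_sqrt (by linarith)

lemma one_le_s (hκ : 0 ≤ κ) : 1 ≤ s κ := Real.one_le_sqrt.2 (by linarith)

lemma s_pos (hκ : 0 ≤ κ) : 0 < s κ := lt_of_lt_of_le one_pos (one_le_s hκ)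

lemma s_four_le (hκ : 0 ≤ κ) : s (4 * κ) ≤ 2 * s κ := by
  have h1 := s_sq hκ
  have h2 := s_pos hκ
  rw [s, Real.sqrt_le_left (by positivity)]
  nlinarith

lemma s_four_lt (hκ : 0 ≤ κ) : s (4 * κ) < 2 * s κ := by
  have h1 := s_sq hκ
  have h2 := s_pos hκ
  rw [s, Real.sqrt_lt' (by positivity)]
  nlinarith

lemma β_of_one_le {t : ℝ} (ht : 1 ≤ t) : β κ t = s κ := by
  rw [β, min_eq_right ht, max_eq_right (by norm_num)]
  simp [s]

lemma β_of_le_half {t : ℝ} (ht : t ≤ 1 / 2) : β κ t = s (4 * κ) := by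
  rw [β, min_eq_left (by linarith), max_eq_left ht, s]
  congr 1
  ring

lemma β_mid {t : ℝ} (h1 : 1 / 2 ≤ t) (h2 : t ≤ 1) : β κ t = √(1 + κ / t ^ 2) := by
  rw [β, min_eq_left h2, max_eq_right h1]

lemma s_le_β (hκ : 0 ≤ κ) (t : ℝ) : s κ ≤ β κ t := by
  refine Real.sqrt_le_sqrt ?_
  have h1 : (1 / 2 : ℝ) ≤ max (1 / 2) (min t 1) := le_max_left _ _
  have h2 : max (1 / 2) (min t 1) ≤ 1 := max_le (by norm_num) (min_le_right _ _)
  have h3 : κ ≤ κ / (max (1 / 2) (min t 1)) ^ 2 := by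
    rw [le_div_iff₀ (by positivity)]
    exact mul_le_of_le_one_right hκ (by nlinarith)
  linarith

lemma β_le (hκ : 0 ≤ κ) (t : ℝ) : β κ t ≤ s (4 * κ) := by
  refine Real.sqrt_le_sqrt ?_
  have h1 : (1 / 2 : ℝ) ≤ max (1 / 2) (min t 1) := le_max_left _ _
  have h3 : κ / (max (1 / 2) (min t 1)) ^ 2 ≤ 4 * κ := by
    rw [div_le_iff₀ (by positivity)]
    nlinarith [mul_nonneg hκ (show 0 ≤ 4 * (max (1 / 2) (min t 1)) ^ 2 - 1 by nlinarith)]
  linarith

lemma β_sq (hκ : 0 ≤ κ) (t : ℝ) : β κ t ^ 2 = 1 + κ / (max (1 / 2) (min t 1)) ^ 2 :=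
  Real.sq_sqrt (by positivity)

lemma abs_β_sub_le (hκ : 0 ≤ κ) (t t' : ℝ) : |β κ t - β κ t'| ≤ 32 * s κ * |t - t'| := by
  set c := max (1 / 2) (min t 1) with hc
  set c' := max (1 / 2) (min t' 1) with hc'
  have h1 : (1 / 2 : ℝ) ≤ c := le_max_left _ _
  have h2 : c ≤ 1 := max_le (by norm_num) (min_le_right _ _)
  have h1' : (1 / 2 : ℝ) ≤ c' := le_max_left _ _
  have h2' : c' ≤ 1 := max_le (by norm_num) (min_le_right _ _)
  have hcc : |c - c'| ≤ |t - t'| := by
    refine (abs_max_sub_max_le_max _ _ _ _).trans ?_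
    rw [sub_self, abs_zero]
    refine max_le (abs_nonneg _) ((abs_min_sub_min_le_max _ _ _ _).trans ?_)
    rw [sub_self, abs_zero]
    exact max_le le_rfl (abs_nonneg _)
  have hs := s_pos hκ
  have hb := s_le_β hκ t
  have hb' := s_le_β hκ t'
  have e : (β κ t - β κ t') * (β κ t + β κ t') = κ * (c' - c) * ((c + c') / (c ^ 2 * c' ^ 2)) := by
    have e1 := β_sq hκ t
    have e2 := β_sq hκ t'
    rw [← hc] at e1
    rw [← hc'] at e2
    have : (β κ t - β κ t') * (β κ t + β κ t') = β κ t ^ 2 - β κ t' ^ 2 := by ring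
    rw [this, e1, e2]
    field_simp
    ring
  have hq0 : 0 ≤ (c + c') / (c ^ 2 * c' ^ 2) := by positivity
  have hq : (c + c') / (c ^ 2 * c' ^ 2) ≤ 32 := by
    rw [div_le_iff₀ (by positivity)]
    have a1 : 1 / 4 ≤ c ^ 2 := by nlinarith
    have a2 : 1 / 4 ≤ c' ^ 2 := by nlinarith
    nlinarith
  have h3 : |β κ t - β κ t'| * (β κ t + β κ t') ≤ κ * |t - t'| * 32 := by
    rw [← abs_of_pos (show 0 < β κ t + β κ t' by linarith), ← abs_mul, e, abs_mul, abs_mul,
      abs_of_nonneg hκ, abs_of_nonneg hq0, abs_sub_comm]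
    gcongr
  have h4 : |β κ t - β κ t'| * s κ ≤ 32 * s κ * |t - t'| * s κ := by
    have a1 : |β κ t - β κ t'| * s κ ≤ |β κ t - β κ t'| * (β κ t + β κ t') :=
      mul_le_mul_of_nonneg_left (by linarith) (abs_nonneg _)
    have a2 : κ * |t - t'| ≤ s κ ^ 2 * |t - t'| :=
      mul_le_mul_of_nonneg_right (by rw [s_sq hκ]; linarith) (abs_nonneg _)
    nlinarith
  exact le_of_mul_le_mul_right h4 hs

lemma B_eq_zero {x : P} (hx : 1 ≤ ‖x‖) : B κ x = 0 := by
  simp [B, β_of_one_le hx]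

lemma abs_β_sub_s (hκ : 0 ≤ κ) (t : ℝ) : |β κ t - s κ| ≤ s κ := by
  have h1 := s_le_β hκ t
  have h2 := β_le hκ t
  have h3 := s_four_le hκ
  rw [abs_of_nonneg (by linarith)]
  linarith

lemma norm_B_le (hκ : 0 ≤ κ) (x : P) : ‖B κ x‖ ≤ s κ := by
  by_cases hx : 1 ≤ ‖x‖
  · rw [B_eq_zero hx, norm_zero]
    exact (s_pos hκ).le
  · rw [B, norm_smul, Real.norm_eq_abs]
    calc _ ≤ s κ * 1 := mul_le_mul (abs_β_sub_s hκ _) (not_le.1 hx).le (norm_nonneg _)
          (s_pos hκ).le
      _ = s κ := mul_one _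

lemma B_sub_le (hκ : 0 ≤ κ) (x y : P) : ‖B κ x - B κ y‖ ≤ 33 * s κ * ‖x - y‖ := by
  have key : ∀ x y : P, ‖y‖ ≤ 1 → ‖B κ x - B κ y‖ ≤ 33 * s κ * ‖x - y‖ := by
    intro x y hy
    have e : B κ x - B κ y = (β κ ‖x‖ - s κ) • (x - y) + (β κ ‖x‖ - β κ ‖y‖) • y := by
      simp only [B]
      module
    rw [e]
    refine (norm_add_le _ _).trans ?_
    rw [norm_smul, norm_smul, Real.norm_eq_abs, Real.norm_eq_abs]
    have h1 := abs_β_sub_s hκ ‖x‖
    have h2 := abs_β_sub_le hκ ‖x‖ ‖y‖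
    have h3 := abs_norm_sub_norm_le x y
    have hs := s_pos hκ
    have h4 : |β κ ‖x‖ - s κ| * ‖x - y‖ ≤ s κ * ‖x - y‖ :=
      mul_le_mul_of_nonneg_right h1 (norm_nonneg _)
    have h5 : |β κ ‖x‖ - β κ ‖y‖| * ‖y‖ ≤ |β κ ‖x‖ - β κ ‖y‖| :=
      mul_le_of_le_one_right (abs_nonneg _) hy
    have h6 : 32 * s κ * |‖x‖ - ‖y‖| ≤ 32 * s κ * ‖x - y‖ :=
      mul_le_mul_of_nonneg_left h3 (by positivity)
    linarith
  by_cases hy : ‖y‖ ≤ 1
  · exact key x y hy
  by_cases hx : ‖x‖ ≤ 1
  · rw [norm_sub_rev, norm_sub_rev x]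
    exact key y x hx
  · rw [B_eq_zero (not_le.1 hx).le, B_eq_zero (not_le.1 hy).le, sub_zero, norm_zero]
    have := s_pos hκ
    positivity

end

/-- `x` lies in the closed quadrant of the centre `z j`. -/
def Compat (x : P) (j : Bool × Bool) : Prop := 0 ≤ x.1 * σ j.1 ∧ 0 ≤ x.2 * σ j.2

lemma abs_σ (b : Bool) : |σ b| = 1 / 4 := by
  cases b <;> simp [σ]

lemma norm_z (j : Bool × Bool) : ‖z j‖ = 1 / 4 := by
  simp [z, Prod.norm_def, abs_σ]

lemma exists_sign (t : ℝ) : ∃ b, 0 ≤ t * σ b := by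
  rcases le_total 0 t with h | h
  · exact ⟨true, by simp [σ]; linarith⟩
  · exact ⟨false, by simp [σ]; linarith⟩

lemma exists_compat (x : P) : ∃ j, Compat x j := by
  obtain ⟨a, ha⟩ := exists_sign x.1
  obtain ⟨b, hb⟩ := exists_sign x.2
  exact ⟨(a, b), ha, hb⟩

lemma far_sign {t : ℝ} {a b : Bool} (h : 0 ≤ t * σ a) (hab : b ≠ a) : 1 ≤ |4 * (t - σ b)| := by
  cases a <;> cases b <;> simp [σ] at h hab ⊢
  · rw [abs_of_nonpos (by linarith)]
    linarith
  · rw [abs_of_nonneg (by linarith)]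
    linarith

lemma near_sign {t : ℝ} {a : Bool} (h : 0 ≤ t * σ a) (ht : |t| ≤ 1 / 2) :
    |4 * (t - σ a)| ≤ 1 := by
  rw [abs_le] at ht ⊢
  cases a <;> simp [σ] at h ⊢ <;> constructor <;> linarith [ht.1, ht.2]

lemma near_sign_lt {t : ℝ} {a : Bool} (h : 0 < t * σ a) (ht : |t| < 1 / 2) :
    |4 * (t - σ a)| < 1 := by
  rw [abs_lt] at ht ⊢
  cases a <;> simp [σ] at h ⊢ <;> constructor <;> linarith [ht.1, ht.2]

lemma far_compat {x : P} {j j' : Bool × Bool} (h : Compat x j) (hj : j' ≠ j) :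
    1 ≤ ‖(4 : ℝ) • (x - z j')‖ := by
  by_cases h1 : j'.1 = j.1
  · have h2 : j'.2 ≠ j.2 := fun h2 => hj (Prod.ext h1 h2)
    exact (far_sign h.2 h2).trans (norm_snd_le ((4 : ℝ) • (x - z j')))
  · exact (far_sign h.1 h1).trans (norm_fst_le ((4 : ℝ) • (x - z j')))

lemma near_compat {x : P} {j : Bool × Bool} (h : Compat x j) (hx : ‖x‖ ≤ 1 / 2) :
    ‖(4 : ℝ) • (x - z j)‖ ≤ 1 :=
  max_le (near_sign h.1 ((norm_fst_le x).trans hx)) (near_sign h.2 ((norm_snd_le x).trans hx))

lemma far_of_half {x : P} (hx : 1 / 2 ≤ ‖x‖) (j : Bool × Bool) : 1 ≤ ‖(4 : ℝ) • (x - z j)‖ := by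
  have := norm_sub_norm_le x (z j)
  rw [norm_z] at this
  rw [norm_smul, Real.norm_of_nonneg (by norm_num)]
  linarith

lemma T_eq_zero (k : ℕ) : ∀ (κ : ℝ) (x : P), 1 ≤ ‖x‖ → T k κ x = 0 := by
  induction k with
  | zero => exact fun κ x hx => B_eq_zero hx
  | succ k ih =>
    intro κ x hx
    rw [T]
    exact Finset.sum_eq_zero fun j _ => by rw [ih _ _ (far_of_half (by linarith) j), smul_zero]

lemma T_succ_eq_zero (k : ℕ) (κ : ℝ) {x : P} (hx : 1 / 2 ≤ ‖x‖) : T (k + 1) κ x = 0 := by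
  rw [T]
  exact Finset.sum_eq_zero fun j _ => by rw [T_eq_zero _ _ _ (far_of_half hx j), smul_zero]

lemma T_succ (k : ℕ) (κ : ℝ) {x : P} {j : Bool × Bool} (h : Compat x j) :
    T (k + 1) κ x = (1 / 4 : ℝ) • T k (4 * κ) ((4 : ℝ) • (x - z j)) := by
  rw [T, Finset.sum_eq_single j]
  · intro j' _ hj
    rw [T_eq_zero _ _ _ (far_compat h hj), smul_zero]
  · simp

lemma norm_T_le (k : ℕ) : ∀ (κ : ℝ), 0 ≤ κ → ∀ x : P, ‖T k κ x‖ ≤ s κ * (1 / 2) ^ k := by
  induction k with
  | zero => intro κ hκ x; simpa [T] using norm_B_le hκ x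
  | succ k ih =>
    intro κ hκ x
    obtain ⟨j, hj⟩ := exists_compat x
    rw [T_succ k κ hj, norm_smul, Real.norm_of_nonneg (by norm_num), pow_succ]
    have h1 := ih (4 * κ) (by linarith) ((4 : ℝ) • (x - z j))
    have h2 : s (4 * κ) * (1 / 2) ^ k ≤ 2 * s κ * (1 / 2) ^ k :=
      mul_le_mul_of_nonneg_right (s_four_le hκ) (by positivity)
    linarith

lemma continuous_T (k : ℕ) : ∀ (κ : ℝ), 0 ≤ κ → Continuous (T k κ) := by
  induction k with
  | zero =>
    intro κ hκ
    exact (LipschitzWith.of_dist_le' (K := 33 * s κ) fun x y => by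
      simpa [dist_eq_norm, T] using B_sub_le hκ x y).continuous
  | succ k ih =>
    intro κ hκ
    have := ih (4 * κ) (by linarith)
    change Continuous fun x => ∑ j : Bool × Bool, (1 / 4 : ℝ) • T k (4 * κ) ((4 : ℝ) • (x - z j))
    fun_prop

lemma lipschitz_T (k : ℕ) : ∀ (κ : ℝ), 0 ≤ κ →
    LipschitzWith (Real.toNNReal (33 * s κ * 2 ^ k)) (T k κ) := by
  induction k with
  | zero =>
    intro κ hκ
    exact LipschitzWith.of_dist_le' fun x y => by
      simpa [dist_eq_norm, T] using B_sub_le hκ x y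
  | succ k ih =>
    intro κ hκ
    rw [← lipschitzOnWith_univ]
    refine lipschitzOnWith_of_closed_cover convex_univ (continuous_T _ κ hκ).continuousOn
      (I := (univ : Set (Bool × Bool))) finite_univ (fun j => {x | Compat x j}) ?_ ?_ ?_
    · intro j _
      have c1 : Continuous fun x : P => x.1 * σ j.1 := by fun_prop
      have c2 : Continuous fun x : P => x.2 * σ j.2 := by fun_prop
      exact (isClosed_le continuous_const c1).inter (isClosed_le continuous_const c2)
    · intro x _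
      simpa using exists_compat x
    · intro j _
      refine LipschitzOnWith.of_dist_le' fun x hx y hy => ?_
      have h1 := (ih (4 * κ) (by linarith)).dist_le_mul ((4 : ℝ) • (x - z j)) ((4 : ℝ) • (y - z j))
      have hs := s_pos hκ
      have hs' := s_pos (show 0 ≤ 4 * κ by linarith)
      rw [Real.coe_toNNReal _ (by positivity), dist_eq_norm, dist_eq_norm,
        show (4 : ℝ) • (x - z j) - (4 : ℝ) • (y - z j) = (4 : ℝ) • (x - y) by module,
        norm_smul, Real.norm_of_nonneg (by norm_num)] at h1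
      rw [T_succ k κ hx, T_succ k κ hy, dist_eq_norm, dist_eq_norm, ← smul_sub, norm_smul,
        Real.norm_of_nonneg (by norm_num), pow_succ]
      have h2 : s (4 * κ) * (2 ^ k * ‖x - y‖) ≤ 2 * s κ * (2 ^ k * ‖x - y‖) :=
        mul_le_mul_of_nonneg_right (s_four_le hκ) (by positivity)
      linarith

lemma summable_bound (κ : ℝ) : Summable fun k : ℕ => s κ * (1 / 2 : ℝ) ^ k :=
  summable_geometric_two.mul_left _

lemma summable_T {κ : ℝ} (hκ : 0 ≤ κ) (x : P) : Summable fun k => T k κ x :=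
  Summable.of_norm_bounded (summable_bound κ) fun k => norm_T_le k κ hκ x

lemma continuous_f {κ : ℝ} (hκ : 0 ≤ κ) : Continuous (f κ) := by
  have := continuous_tsum (fun k => continuous_T k κ hκ) (summable_bound κ)
    (fun k x => norm_T_le k κ hκ x)
  exact (continuous_const_smul _).add this

lemma f_outer {κ : ℝ} (hκ : 0 ≤ κ) {x : P} (hx : 1 / 2 ≤ ‖x‖) : f κ x = β κ ‖x‖ • x := by
  rw [f, (summable_T hκ x).tsum_eq_zero_add]
  simp only [T_succ_eq_zero _ κ hx, tsum_zero, add_zero]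
  rw [T, B]
  module

lemma f_inner {κ : ℝ} (hκ : 0 ≤ κ) {x : P} (hx : ‖x‖ ≤ 1 / 2) {j : Bool × Bool}
    (h : Compat x j) :
    f κ x = s (4 * κ) • z j + (1 / 4 : ℝ) • f (4 * κ) ((4 : ℝ) • (x - z j)) := by
  rw [f, (summable_T hκ x).tsum_eq_zero_add]
  simp only [T_succ _ κ h]
  rw [tsum_const_smul'', f, T, B, β_of_le_half hx]
  module

lemma norm_f_outer_sq {κ : ℝ} (hκ : 0 ≤ κ) {x : P} (hx : 1 / 2 ≤ ‖x‖) (hx' : ‖x‖ ≤ 1) :
    ‖f κ x‖ ^ 2 = ‖x‖ ^ 2 + κ := by
  rw [f_outer hκ hx, norm_smul, mul_pow, Real.norm_eq_abs, sq_abs, β_sq hκ, min_eq_left hx',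
    max_eq_right hx]
  have : ‖x‖ ≠ 0 := by linarith
  field_simp

lemma norm_f_le {κ : ℝ} (hκ : 0 ≤ κ) {x : P} (hx : ‖x‖ ≤ 1) : ‖f κ x‖ ≤ s κ := by
  have key : ∀ n : ℕ, ∀ κ : ℝ, 0 ≤ κ → ∀ x : P, ‖x‖ ≤ 1 →
      ‖f κ x‖ ≤ s κ * (1 + 2 * (1 / 2) ^ n) := by
    intro n
    induction n with
    | zero =>
      intro κ hκ x hx
      have hs := s_pos hκ
      have h1 : ‖∑' k, T k κ x‖ ≤ s κ * 2 := by
        have := tsum_of_norm_bounded (summable_bound κ).hasSum (fun k => norm_T_le k κ hκ x)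
        rwa [tsum_mul_left, tsum_geometric_two] at this
      have h2 : ‖s κ • x‖ ≤ s κ := by
        rw [norm_smul, Real.norm_of_nonneg hs.le]
        exact mul_le_of_le_one_right hs.le hx
      have := norm_add_le (s κ • x) (∑' k, T k κ x)
      rw [f]
      linarith
    | succ n ih =>
      intro κ hκ x hx
      have hs := s_pos hκ
      rcases le_total (1 / 2) ‖x‖ with h | h
      · have h1 := norm_f_outer_sq hκ h hx
        have h2 : ‖f κ x‖ ≤ s κ := by
          refine le_of_sq_le_sq ?_ hs.le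
          rw [h1, s_sq hκ]
          nlinarith [norm_nonneg x]
        have : (0 : ℝ) ≤ s κ * (2 * (1 / 2) ^ (n + 1)) := by positivity
        linarith
      · obtain ⟨j, hj⟩ := exists_compat x
        have h1 := ih (4 * κ) (by linarith) _ (near_compat hj h)
        have hs' := s_pos (show 0 ≤ 4 * κ by linarith)
        rw [f_inner hκ h hj]
        refine (norm_add_le _ _).trans ?_
        rw [norm_smul, norm_smul, norm_z, Real.norm_of_nonneg hs'.le,
          Real.norm_of_nonneg (by norm_num), pow_succ]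
        have h2 : s (4 * κ) * (1 + (1 / 2) ^ n) ≤ 2 * s κ * (1 + (1 / 2) ^ n) :=
          mul_le_mul_of_nonneg_right (s_four_le hκ) (by positivity)
        linarith
  have h1 : Tendsto (fun n : ℕ => s κ * (1 + 2 * (1 / 2 : ℝ) ^ n)) atTop
      (𝓝 (s κ * (1 + 2 * 0))) :=
    (((tendsto_pow_atTop_nhds_zero_of_lt_one (by norm_num) (by norm_num)).const_mul 2).const_add
      1).const_mul _
  have := ge_of_tendsto' h1 fun n => key n κ hκ x hx
  simpa using this

lemma norm_f_inner_le {κ : ℝ} (hκ : 0 ≤ κ) {x : P} (hx : ‖x‖ ≤ 1 / 2) :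
    ‖f κ x‖ ≤ s (4 * κ) / 2 := by
  obtain ⟨j, hj⟩ := exists_compat x
  have h1 := norm_f_le (show 0 ≤ 4 * κ by linarith) (near_compat hj hx)
  have hs' := s_pos (show 0 ≤ 4 * κ by linarith)
  rw [f_inner hκ hx hj]
  refine (norm_add_le _ _).trans ?_
  rw [norm_smul, norm_smul, norm_z, Real.norm_of_nonneg hs'.le, Real.norm_of_nonneg (by norm_num)]
  linarith

lemma norm_f_lt {κ : ℝ} (hκ : 0 ≤ κ) {x : P} (hx : ‖x‖ < 1) : ‖f κ x‖ < s κ := by
  rcases le_total (1 / 2) ‖x‖ with h | h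
  · refine lt_of_pow_lt_pow_left₀ 2 (s_pos hκ).le ?_
    rw [norm_f_outer_sq hκ h hx.le, s_sq hκ]
    nlinarith [norm_nonneg x]
  · have := norm_f_inner_le hκ h
    have := s_four_lt hκ
    linarith

lemma coord_lt {κ : ℝ} (hκ : 0 ≤ κ) (l : P →ₗ[ℝ] ℝ) (hl : ∀ x, l x ≤ ‖x‖) {x : P}
    (hx : ‖x‖ ≤ 1) (hlx : l x < 1) : l (f κ x) < s κ := by
  rcases hx.lt_or_eq with h | h
  · exact (hl _).trans_lt (norm_f_lt hκ h)
  · rw [f_outer hκ (by linarith), β_of_one_le h.ge, map_smul, smul_eq_mul]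
    exact mul_lt_of_lt_one_right (s_pos hκ) hlx

/-- Signs of coordinates are preserved in the inner square. -/
lemma sign_pos {κ : ℝ} (hκ : 0 ≤ κ) (l : P →ₗ[ℝ] ℝ) (hl : ∀ x, l x ≤ ‖x‖) {x : P}
    (hx : ‖x‖ ≤ 1 / 2) {j : Bool × Bool} (h : Compat x j) (hz : l (z j) = -(1 / 4))
    (hlx : l x < 0) : l (f κ x) < 0 := by
  have h1 := coord_lt (show 0 ≤ 4 * κ by linarith) l hl (near_compat h hx) (by
    rw [map_smul, map_sub, hz, smul_eq_mul]
    linarith)
  rw [f_inner hκ hx h, map_add, map_smul, map_smul, hz, smul_eq_mul, smul_eq_mul]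
  linarith

lemma σ_of_pos {t : ℝ} {b : Bool} (h : 0 ≤ t * σ b) (ht : 0 < t) : σ b = 1 / 4 := by
  cases b
  · simp [σ] at h
    linarith
  · simp [σ]

lemma σ_of_neg {t : ℝ} {b : Bool} (h : 0 ≤ t * σ b) (ht : t < 0) : σ b = -(1 / 4) := by
  cases b
  · simp [σ]
  · simp [σ] at h
    linarith

lemma sign_fst {κ : ℝ} (hκ : 0 ≤ κ) {x : P} (hx : ‖x‖ ≤ 1 / 2) :
    (x.1 < 0 → (f κ x).1 < 0) ∧ (0 < x.1 → 0 < (f κ x).1) := by
  obtain ⟨j, hj⟩ := exists_compat x
  refine ⟨fun h => ?_, fun h => ?_⟩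
  · exact sign_pos hκ (LinearMap.fst ℝ ℝ ℝ) (fun x => (le_abs_self _).trans (norm_fst_le x)) hx hj
      (σ_of_neg hj.1 h) h
  · have := sign_pos hκ (-LinearMap.fst ℝ ℝ ℝ)
      (fun x => (neg_le_abs _).trans (norm_fst_le x)) hx hj
      (by simp [z, σ_of_pos hj.1 h]) (by simpa using h)
    simpa using this

lemma sign_snd {κ : ℝ} (hκ : 0 ≤ κ) {x : P} (hx : ‖x‖ ≤ 1 / 2) :
    (x.2 < 0 → (f κ x).2 < 0) ∧ (0 < x.2 → 0 < (f κ x).2) := by
  obtain ⟨j, hj⟩ := exists_compat x
  refine ⟨fun h => ?_, fun h => ?_⟩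
  · exact sign_pos hκ (LinearMap.snd ℝ ℝ ℝ) (fun x => (le_abs_self _).trans (norm_snd_le x)) hx hj
      (σ_of_neg hj.2 h) h
  · have := sign_pos hκ (-LinearMap.snd ℝ ℝ ℝ)
      (fun x => (neg_le_abs _).trans (norm_snd_le x)) hx hj
      (by simp [z, σ_of_pos hj.2 h]) (by simpa using h)
    simpa using this

lemma common_sign {a b u : ℝ} (ha : (a < 0 → u < 0) ∧ (0 < a → 0 < u))
    (hb : (b < 0 → u < 0) ∧ (0 < b → 0 < u)) : ∃ c, 0 ≤ a * σ c ∧ 0 ≤ b * σ c := by
  rcases le_or_gt 0 u with h | h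
  · refine ⟨true, ?_, ?_⟩ <;> simp only [σ, if_true]
    · have : ¬ a < 0 := fun h' => by linarith [ha.1 h']
      linarith [not_lt.1 this]
    · have : ¬ b < 0 := fun h' => by linarith [hb.1 h']
      linarith [not_lt.1 this]
  · refine ⟨false, ?_, ?_⟩ <;> simp only [σ, Bool.false_eq_true, if_false]
    · have : ¬ 0 < a := fun h' => by linarith [ha.2 h']
      linarith [not_lt.1 this]
    · have : ¬ 0 < b := fun h' => by linarith [hb.2 h']
      linarith [not_lt.1 this]

lemma f_injOn {κ : ℝ} (hκ : 0 ≤ κ) : InjOn (f κ) (closedBall 0 1) := by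
  have mixed : ∀ κ : ℝ, 0 ≤ κ → ∀ x y : P, ‖x‖ ≤ 1 / 2 → 1 / 2 < ‖y‖ → ‖y‖ ≤ 1 →
      f κ x ≠ f κ y := by
    intro κ hκ x y hx hy hy' h
    have h1 := norm_f_inner_le hκ hx
    have h2 := norm_f_outer_sq hκ hy.le hy'
    have h3 := s_sq (show 0 ≤ 4 * κ by linarith)
    rw [h] at h1
    have h4 : ‖f κ y‖ ^ 2 ≤ (s (4 * κ) / 2) ^ 2 := by gcongr
    nlinarith
  have key : ∀ n : ℕ, ∀ κ : ℝ, 0 ≤ κ → ∀ x y : P, ‖x‖ ≤ 1 → ‖y‖ ≤ 1 → f κ x = f κ y →
      4 ^ n * ‖x - y‖ ≤ 2 := by
    intro n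
    induction n with
    | zero =>
      intro κ _ x y hx hy _
      have := norm_sub_le x y
      rw [pow_zero]
      linarith
    | succ n ih =>
      intro κ hκ x y hx hy h
      by_cases hx' : ‖x‖ ≤ 1 / 2 <;> by_cases hy' : ‖y‖ ≤ 1 / 2
      · obtain ⟨a, ha1, ha2⟩ := common_sign (sign_fst hκ hx') (h ▸ sign_fst hκ hy')
        obtain ⟨b, hb1, hb2⟩ := common_sign (sign_snd hκ hx') (h ▸ sign_snd hκ hy')
        have cx : Compat x (a, b) := ⟨ha1, hb1⟩
        have cy : Compat y (a, b) := ⟨ha2, hb2⟩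
        rw [f_inner hκ hx' cx, f_inner hκ hy' cy, add_right_inj] at h
        have h1 := ih _ (by linarith) _ _ (near_compat cx hx') (near_compat cy hy')
          (smul_right_injective P (by norm_num) h)
        rw [show (4 : ℝ) • (x - z (a, b)) - (4 : ℝ) • (y - z (a, b)) = (4 : ℝ) • (x - y) by module,
          norm_smul, Real.norm_of_nonneg (by norm_num)] at h1
        rw [pow_succ]
        linarith
      · exact absurd h (mixed κ hκ x y hx' (not_le.1 hy') hy)
      · exact absurd h.symm (mixed κ hκ y x hy' (not_le.1 hx') hx)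
      · have hx'' := (not_le.1 hx').le
        have hy'' := (not_le.1 hy').le
        have h1 := norm_f_outer_sq hκ hx'' hx
        have h2 := norm_f_outer_sq hκ hy'' hy
        have h3 : ‖x‖ = ‖y‖ := by
          rw [h, h2] at h1
          exact (sq_eq_sq₀ (norm_nonneg _) (norm_nonneg _)).1 (by linarith)
        rw [f_outer hκ hx'', f_outer hκ hy'', h3] at h
        have h4 : x = y := smul_right_injective P
          (ne_of_gt ((s_pos hκ).trans_le (s_le_β hκ _))) h
        simp [h4]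
  intro x hx y hy h
  rw [mem_closedBall_zero_iff] at hx hy
  by_contra hne
  have hpos : 0 < ‖x - y‖ := norm_pos_iff.2 (sub_ne_zero.2 hne)
  obtain ⟨n, hn⟩ := pow_unbounded_of_one_lt (2 / ‖x - y‖) (show (1 : ℝ) < 4 by norm_num)
  have := key n κ hκ x y hx hy h
  rw [div_lt_iff₀ hpos] at hn
  linarith

lemma f_isEmbedding {κ : ℝ} (hκ : 0 ≤ κ) : IsEmbedding ((ball (0 : P) 1).domRestrict (f κ)) := by
  have : CompactSpace (closedBall (0 : P) 1) := isCompact_iff_compactSpace.1
    (isCompact_closedBall _ _)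
  have h1 : IsClosedEmbedding ((closedBall (0 : P) 1).domRestrict (f κ)) :=
    ((continuous_f hκ).comp continuous_subtype_val).isClosedEmbedding (f_injOn hκ).injective
  exact h1.isEmbedding.comp (IsEmbedding.inclusion ball_subset_closedBall)

end Pool.Agent.Lib.MP_69386a_an
end

-- part Pool.Agent.Lib.MP_69386a_an.Deriv
section

/-!
Derivative of the Ponomarev-type map: integrability, weak differentiability, Jacobian one.
-/

set_option autoImplicit false
open Filter Topology MeasureTheory Set Metric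
open scoped NNReal ENNReal ContDiff

namespace Pool.Agent.Lib.MP_69386a_an

/-- The union of the closed squares of level `k`. -/
def A : ℕ → Set P
  | 0 => closedBall 0 1
  | k + 1 => ⋃ j : Bool × Bool, (fun x : P => (4 : ℝ) • (x - z j)) ⁻¹' A k

lemma isClosed_A (k : ℕ) : IsClosed (A k) := by
  induction k with
  | zero => exact isClosed_closedBall
  | succ k ih => exact isClosed_iUnion_of_finite fun j => ih.preimage (by fun_prop)

lemma A_succ_subset (k : ℕ) : A (k + 1) ⊆ A k := by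
  induction k with
  | zero =>
    intro x hx
    obtain ⟨j, hj⟩ := mem_iUnion.1 hx
    have h1 : ‖(4 : ℝ) • (x - z j)‖ ≤ 1 := mem_closedBall_zero_iff.1 hj
    have h2 := norm_sub_norm_le x (z j)
    rw [norm_smul, Real.norm_of_nonneg (by norm_num)] at h1
    rw [norm_z] at h2
    exact mem_closedBall_zero_iff.2 (by linarith)
  | succ k ih => exact iUnion_mono fun j => preimage_mono ih

lemma A_anti : Antitone A := antitone_nat_of_succ_le A_succ_subset

lemma T_eq_zero_of_notMem (k : ℕ) : ∀ (κ : ℝ) (x : P), x ∉ A k → T k κ x = 0 := by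
  induction k with
  | zero =>
    intro κ x hx
    exact T_eq_zero 0 κ x (le_of_lt (not_le.1 fun h => hx (mem_closedBall_zero_iff.2 h)))
  | succ k ih =>
    intro κ x hx
    rw [T]
    refine Finset.sum_eq_zero fun j _ => ?_
    rw [ih _ _ (fun h => hx (mem_iUnion.2 ⟨j, h⟩)), smul_zero]

lemma volume_preimage (c : P) (S : Set P) :
    volume ((fun x : P => (4 : ℝ) • (x - c)) ⁻¹' S) = ENNReal.ofReal (1 / 16) * volume S := by
  have h1 : (fun x : P => (4 : ℝ) • (x - c)) ⁻¹' S =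
      (fun x : P => x + -c) ⁻¹' (((4 : ℝ) • ·) ⁻¹' S) := by
    ext x
    simp [sub_eq_add_neg]
  rw [h1, measure_preimage_add_right, Measure.addHaar_preimage_smul _ (by norm_num)]
  congr 2
  rw [Module.finrank_prod, Module.finrank_self]
  norm_num

lemma ae_affine {p : P → Prop} (c : P) (h : ∀ᵐ w, p w) : ∀ᵐ x : P, p ((4 : ℝ) • (x - c)) := by
  rw [ae_iff] at h ⊢
  have := volume_preimage c {w | ¬ p w}
  rw [h, mul_zero] at this
  exact this

lemma volume_A (k : ℕ) : volume (A k) ≤ volume (A 0) * ENNReal.ofReal ((1 / 4) ^ k) := by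
  induction k with
  | zero => simp
  | succ k ih =>
    refine (measure_iUnion_fintype_le _ _).trans ?_
    simp only [volume_preimage, Finset.sum_const, Finset.card_univ, Fintype.card_prod,
      Fintype.card_bool, nsmul_eq_mul]
    calc ((2 * 2 : ℕ) : ℝ≥0∞) * (ENNReal.ofReal (1 / 16) * volume (A k))
        ≤ ((2 * 2 : ℕ) : ℝ≥0∞) * (ENNReal.ofReal (1 / 16) *
          (volume (A 0) * ENNReal.ofReal ((1 / 4) ^ k))) := by gcongr
      _ = volume (A 0) * (ENNReal.ofReal ((2 * 2 : ℕ) : ℝ) * ENNReal.ofReal (1 / 16) *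
          ENNReal.ofReal ((1 / 4) ^ k)) := by
          rw [ENNReal.ofReal_natCast]
          ring
      _ = volume (A 0) * ENNReal.ofReal ((1 / 4) ^ (k + 1)) := by
          rw [← ENNReal.ofReal_mul (by positivity), ← ENNReal.ofReal_mul (by positivity)]
          congr 2
          rw [pow_succ]
          push_cast
          ring

lemma volume_A_zero : volume (A 0) < ⊤ := measure_closedBall_lt_top

lemma ae_exists_notMem : ∀ᵐ x : P, ∃ k, x ∉ A k := by
  rw [ae_iff]
  have h1 : Tendsto (fun k : ℕ => volume (A 0) * ENNReal.ofReal ((1 / 4) ^ k)) atTop (𝓝 0) := by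
    have h0 : Tendsto (fun k : ℕ => ENNReal.ofReal ((1 / 4 : ℝ) ^ k)) atTop (𝓝 0) := by
      have := (ENNReal.continuous_ofReal.tendsto 0).comp
        (tendsto_pow_atTop_nhds_zero_of_lt_one (r := (1 / 4 : ℝ)) (by norm_num) (by norm_num))
      rw [ENNReal.ofReal_zero] at this
      exact this
    have := ENNReal.Tendsto.const_mul h0 (Or.inr volume_A_zero.ne)
    simpa using this
  refine le_antisymm (ge_of_tendsto' h1 fun k => le_trans (measure_mono ?_) (volume_A k)) zero_le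
  intro x hx
  by_contra h
  exact hx ⟨k, h⟩

/-- The Lipschitz approximations. -/
noncomputable def fN (κ : ℝ) (m : ℕ) (x : P) : P := s κ • x + ∑ k ∈ Finset.range (m + 1), T k κ x

/-- Their Lipschitz constants. -/
noncomputable def K (κ : ℝ) (m : ℕ) : ℝ := 66 * s κ * 2 ^ m

lemma K_pos {κ : ℝ} (hκ : 0 ≤ κ) (m : ℕ) : 0 < K κ m := by
  have := s_pos hκ
  unfold K
  positivity

lemma K_mono {κ : ℝ} (hκ : 0 ≤ κ) {m n : ℕ} (h : m ≤ n) : K κ m ≤ K κ n := by
  have := s_pos hκ
  unfold K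
  gcongr
  norm_num

lemma lipschitz_fN {κ : ℝ} (hκ : 0 ≤ κ) (m : ℕ) :
    LipschitzWith (Real.toNNReal (K κ m)) (fN κ m) := by
  have hs := s_pos hκ
  have hT : ∀ k x y, ‖T k κ x - T k κ y‖ ≤ 33 * s κ * 2 ^ k * ‖x - y‖ := by
    intro k x y
    have := (lipschitz_T k κ hκ).norm_sub_le x y
    rwa [Real.coe_toNNReal _ (by positivity)] at this
  refine LipschitzWith.of_dist_le' fun x y => ?_
  rw [dist_eq_norm, dist_eq_norm]
  induction m with
  | zero =>
    have e : fN κ 0 x - fN κ 0 y = s κ • (x - y) + (T 0 κ x - T 0 κ y) := by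
      simp only [fN, zero_add, Finset.range_one, Finset.sum_singleton]
      module
    rw [e]
    refine (norm_add_le _ _).trans ?_
    have h1 := hT 0 x y
    rw [norm_smul, Real.norm_of_nonneg hs.le, K]
    have : 0 ≤ s κ * ‖x - y‖ := by positivity
    simp only [pow_zero] at h1 ⊢
    linarith
  | succ m ih =>
    have e : fN κ (m + 1) x - fN κ (m + 1) y =
        (fN κ m x - fN κ m y) + (T (m + 1) κ x - T (m + 1) κ y) := by
      simp only [fN, Finset.sum_range_succ _ (m + 1)]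
      abel
    rw [e]
    refine (norm_add_le _ _).trans ?_
    have h1 := hT (m + 1) x y
    simp only [K, pow_succ] at h1 ih ⊢
    linarith

lemma norm_fderiv_fN_le {κ : ℝ} (hκ : 0 ≤ κ) (m : ℕ) (x : P) :
    ‖fderiv ℝ (fN κ m) x‖ ≤ K κ m := by
  have := norm_fderiv_le_of_lipschitz ℝ (lipschitz_fN hκ m) (x₀ := x)
  rwa [Real.coe_toNNReal _ (K_pos hκ m).le] at this

lemma f_eq_fN (κ : ℝ) {m : ℕ} {x : P} (hx : x ∉ A (m + 1)) : f κ x = fN κ m x := by
  rw [f, fN, tsum_eq_sum]
  intro k hk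
  rw [Finset.mem_range, not_lt] at hk
  exact T_eq_zero_of_notMem k κ x fun h => hx (A_anti hk h)

lemma f_eventuallyEq (κ : ℝ) {m : ℕ} {x : P} (hx : x ∉ A (m + 1)) : f κ =ᶠ[𝓝 x] fN κ m := by
  filter_upwards [(isClosed_A (m + 1)).isOpen_compl.mem_nhds hx] with y hy
  exact f_eq_fN κ hy

lemma exists_level {x : P} (h0 : x ∈ A 0) (h : ∃ k, x ∉ A k) : ∃ n, x ∈ A n ∧ x ∉ A (n + 1) := by
  classical
  have h1 := Nat.find_spec h
  have h2 : Nat.find h ≠ 0 := fun e => h1 (e ▸ h0)
  obtain ⟨n, hn⟩ := Nat.exists_eq_succ_of_ne_zero h2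
  refine ⟨n, ?_, by rwa [hn] at h1⟩
  by_contra h3
  have := Nat.find_min' h h3
  omega

lemma norm_fderiv_f_le {κ : ℝ} (hκ : 0 ≤ κ) {n : ℕ} {x : P} (hx : x ∉ A (n + 1)) :
    ‖fderiv ℝ (f κ) x‖ ≤ K κ n := by
  rw [(f_eventuallyEq κ hx).fderiv_eq]
  exact norm_fderiv_fN_le hκ n x

lemma norm_fderiv_fN_le' {κ : ℝ} (hκ : 0 ≤ κ) {n : ℕ} {x : P} (hx : x ∉ A (n + 1)) (m : ℕ) :
    ‖fderiv ℝ (fN κ m) x‖ ≤ K κ n := by
  rcases le_total m n with h | h
  · exact (norm_fderiv_fN_le hκ m x).trans (K_mono hκ h)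
  · rw [← (f_eventuallyEq κ (m := m) fun h' => hx (A_anti (by omega) h')).fderiv_eq]
    exact norm_fderiv_f_le hκ hx

/-- The majorant. -/
noncomputable def H (κ p : ℝ) (x : P) : ℝ≥0∞ :=
  ∑' n, (A n).indicator (fun _ => ENNReal.ofReal (K κ n ^ p)) x

lemma le_H (κ p : ℝ) {n : ℕ} {x : P} (hx : x ∈ A n) : ENNReal.ofReal (K κ n ^ p) ≤ H κ p x := by
  refine le_trans (le_of_eq ?_) (ENNReal.le_tsum n)
  rw [indicator_of_mem hx]

lemma measurable_H (κ p : ℝ) : Measurable (H κ p) :=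
  Measurable.tsum fun n => measurable_const.indicator (isClosed_A n).measurableSet

lemma lintegral_H {κ p : ℝ} (hκ : 0 ≤ κ) (hp : p < 2) : ∫⁻ x, H κ p x < ⊤ := by
  have hs := s_pos hκ
  set r : ℝ := 2 ^ p / 4 with hr
  have hr0 : 0 ≤ r := by positivity
  have hr1 : r < 1 := by
    rw [hr, div_lt_one (by norm_num)]
    calc (2 : ℝ) ^ p < 2 ^ (2 : ℝ) := Real.rpow_lt_rpow_of_exponent_lt (by norm_num) hp
      _ = 4 := by norm_num
  have hsum : Summable fun n : ℕ => (66 * s κ) ^ p * r ^ n :=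
    (summable_geometric_of_lt_one hr0 hr1).mul_left _
  unfold H
  rw [lintegral_tsum fun n =>
    (measurable_const.indicator (isClosed_A n).measurableSet).aemeasurable]
  calc ∑' n, ∫⁻ x, (A n).indicator (fun _ => ENNReal.ofReal (K κ n ^ p)) x
      ≤ ∑' n, volume (A 0) * ENNReal.ofReal ((66 * s κ) ^ p * r ^ n) := by
        refine ENNReal.tsum_le_tsum fun n => ?_
        rw [lintegral_indicator_const (isClosed_A n).measurableSet]
        calc ENNReal.ofReal (K κ n ^ p) * volume (A n)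
            ≤ ENNReal.ofReal (K κ n ^ p) * (volume (A 0) * ENNReal.ofReal ((1 / 4) ^ n)) := by
              gcongr
              exact volume_A n
          _ = volume (A 0) * ENNReal.ofReal (K κ n ^ p * (1 / 4) ^ n) := by
              rw [ENNReal.ofReal_mul (Real.rpow_nonneg (K_pos hκ n).le _)]
              ring
          _ = volume (A 0) * ENNReal.ofReal ((66 * s κ) ^ p * r ^ n) := by
              congr 2
              rw [K, Real.mul_rpow (by positivity) (by positivity), hr, div_pow,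
                ← Real.rpow_natCast, ← Real.rpow_mul (by norm_num), mul_comm (n : ℝ) p,
                Real.rpow_mul (by norm_num), Real.rpow_natCast, div_pow]
              ring
    _ = volume (A 0) * ENNReal.ofReal (∑' n : ℕ, (66 * s κ) ^ p * r ^ n) := by
        rw [ENNReal.tsum_mul_left, ENNReal.ofReal_tsum_of_nonneg (fun n => by positivity) hsum]
    _ < ⊤ := ENNReal.mul_lt_top volume_A_zero ENNReal.ofReal_lt_top

lemma memLp_fderiv {κ : ℝ} (hκ : 0 ≤ κ) {p : ℝ≥0∞} (hp1 : 1 ≤ p) (hp : p < 2) :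
    MemLp (fderiv ℝ (f κ)) p (volume.restrict (ball (0 : P) 1)) := by
  have hp0 : p ≠ 0 := (lt_of_lt_of_le one_pos hp1).ne'
  have hpt : p ≠ ⊤ := hp.ne_top
  have hp2 : p.toReal < 2 := by
    have := (ENNReal.toReal_lt_toReal hpt (by norm_num)).2 hp
    simpa using this
  refine ⟨(measurable_fderiv ℝ _).aestronglyMeasurable, ?_⟩
  rw [eLpNorm_lt_top_iff_lintegral_rpow_enorm_lt_top hp0 hpt]
  refine lt_of_le_of_lt ?_ (lintegral_H hκ hp2)
  refine le_trans (lintegral_mono_ae ?_) (setLIntegral_le_lintegral (ball (0 : P) 1) _)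
  filter_upwards [ae_restrict_mem measurableSet_ball, ae_restrict_of_ae ae_exists_notMem]
    with x hx hk
  obtain ⟨n, hn1, hn2⟩ := exists_level (ball_subset_closedBall hx) hk
  refine le_trans ?_ (le_H κ _ hn1)
  rw [← ofReal_norm, ENNReal.ofReal_rpow_of_nonneg (norm_nonneg _) ENNReal.toReal_nonneg]
  exact ENNReal.ofReal_le_ofReal
    (Real.rpow_le_rpow (norm_nonneg _) (norm_fderiv_f_le hκ hn2) ENNReal.toReal_nonneg)

lemma memLp_f {κ : ℝ} (hκ : 0 ≤ κ) (p : ℝ≥0∞) :
    MemLp (f κ) p (volume.restrict (ball (0 : P) 1)) := by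
  have : IsFiniteMeasure (volume.restrict (ball (0 : P) 1)) :=
    isFiniteMeasure_restrict.2 measure_ball_lt_top.ne
  refine MemLp.of_bound (continuous_f hκ).aestronglyMeasurable (s κ) ?_
  filter_upwards [ae_restrict_mem measurableSet_ball] with x hx
  exact norm_f_le hκ (mem_ball_zero_iff.1 hx).le

lemma byParts_lipschitz {g : P → P} {C : ℝ≥0} (hg : LipschitzWith C g) {φ : P → ℝ}
    (hφ : ContDiff ℝ ∞ φ) (hc : HasCompactSupport φ) (v : P) (l : P →L[ℝ] ℝ) :
    ∫ x, fderiv ℝ φ x v * l (g x) = -∫ x, φ x * l (fderiv ℝ g x v) := by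
  obtain ⟨D, hD⟩ : ∃ D, LipschitzWith D φ :=
    ContDiff.lipschitzWith_of_hasCompactSupport hc hφ (by simp)
  have h := (l.lipschitz.comp hg).integral_lineDeriv_mul_eq (μ := volume) hD hc v
  have e1 : ∫ x, lineDeriv ℝ (l ∘ g) x v * φ x = ∫ x, φ x * l (fderiv ℝ g x v) := by
    refine integral_congr_ae ?_
    filter_upwards [hg.ae_differentiableAt (μ := volume)] with x hx
    have := (l.hasFDerivAt.comp x hx.hasFDerivAt).hasLineDerivAt v
    rw [this.lineDeriv, mul_comm]
    rfl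
  have e2 : ∫ x, lineDeriv ℝ φ x (-v) * (l ∘ g) x = -∫ x, fderiv ℝ φ x v * l (g x) := by
    rw [← integral_neg]
    congr 1
    ext x
    rw [(hφ.differentiable (by simp)).differentiableAt.lineDeriv_eq_fderiv]
    simp
  rw [e1, e2] at h
  rw [h, neg_neg]

lemma weak_scalar {κ : ℝ} (hκ : 0 ≤ κ) {φ : P → ℝ} (hφ : ContDiff ℝ ∞ φ)
    (hc : HasCompactSupport φ) (hs : tsupport φ ⊆ ball 0 1) (v : P) (l : P →L[ℝ] ℝ) :
    ∫ x, fderiv ℝ φ x v * l (f κ x) = -∫ x, φ x * l (fderiv ℝ (f κ) x v) := by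
  have hsp := s_pos hκ
  have hdc : Continuous fun x => fderiv ℝ φ x v :=
    (hφ.continuous_fderiv (by simp)).clm_apply continuous_const
  have hdcs : HasCompactSupport fun x => fderiv ℝ φ x v := hc.fderiv_apply ℝ v
  have t1 : Tendsto (fun m => ∫ x, fderiv ℝ φ x v * l (fN κ m x)) atTop
      (𝓝 (∫ x, fderiv ℝ φ x v * l (f κ x))) := by
    refine tendsto_integral_of_dominated_convergence
      (fun x => ‖fderiv ℝ φ x v‖ * (‖l‖ * (s κ * ‖x‖ + s κ * 2))) (fun m => ?_) ?_ (fun m => ?_) ?_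
    · exact (hdc.mul (l.continuous.comp (lipschitz_fN hκ m).continuous)).aestronglyMeasurable
    · exact Continuous.integrable_of_hasCompactSupport (by fun_prop) hdcs.norm.mul_right
    · filter_upwards with x
      rw [norm_mul]
      refine mul_le_mul_of_nonneg_left ((l.le_opNorm _).trans ?_) (norm_nonneg _)
      refine mul_le_mul_of_nonneg_left ((norm_add_le _ _).trans ?_) (norm_nonneg _)
      rw [norm_smul, Real.norm_of_nonneg hsp.le]
      refine add_le_add le_rfl ((norm_sum_le _ _).trans ?_)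
      refine (Finset.sum_le_sum fun k _ => norm_T_le k κ hκ x).trans ?_
      have := (summable_bound κ).sum_le_tsum (Finset.range (m + 1)) (fun k _ => by positivity)
      rwa [tsum_mul_left, tsum_geometric_two] at this
    · filter_upwards with x
      have h1 := ((summable_T hκ x).hasSum.tendsto_sum_nat.comp (tendsto_add_atTop_nat 1)).const_add
        (s κ • x)
      exact ((l.continuous.tendsto _).comp h1).const_mul _
  obtain ⟨M, hM⟩ := hφ.continuous.bounded_above_of_compact_support hc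
  have hM0 : 0 ≤ M := (norm_nonneg _).trans (hM 0)
  have hH := lintegral_H hκ (show (1 : ℝ) < 2 by norm_num)
  have t2 : Tendsto (fun m => ∫ x, φ x * l (fderiv ℝ (fN κ m) x v)) atTop
      (𝓝 (∫ x, φ x * l (fderiv ℝ (f κ) x v))) := by
    refine tendsto_integral_of_dominated_convergence
      (fun x => M * (‖l‖ * ((H κ 1 x).toReal * ‖v‖))) (fun m => ?_) ?_ (fun m => ?_) ?_
    · exact (hφ.continuous.measurable.mul (l.continuous.measurable.comp
        (measurable_fderiv_apply_const ℝ _ v))).aestronglyMeasurable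
    · exact (((integrable_toReal_of_lintegral_ne_top (measurable_H κ 1).aemeasurable
        hH.ne).mul_const _).const_mul _).const_mul _
    · filter_upwards [ae_exists_notMem, ae_lt_top (measurable_H κ 1) hH.ne] with x hk hx
      by_cases h0 : x ∈ A 0
      · obtain ⟨n, hn1, hn2⟩ := exists_level h0 hk
        rw [norm_mul]
        refine mul_le_mul (hM x) ((l.le_opNorm _).trans ?_) (norm_nonneg _) hM0
        refine mul_le_mul_of_nonneg_left
          (((fderiv ℝ (fN κ m) x).le_opNorm v).trans ?_) (norm_nonneg _)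
        refine mul_le_mul_of_nonneg_right ((norm_fderiv_fN_le' hκ hn2 m).trans ?_) (norm_nonneg _)
        have := le_H κ 1 hn1
        rw [Real.rpow_one] at this
        exact (ENNReal.ofReal_le_iff_le_toReal hx.ne).1 this
      · have : φ x = 0 := by
          by_contra h
          exact h0 (ball_subset_closedBall (hs (subset_tsupport _ h)))
        rw [this, zero_mul, norm_zero]
        positivity
    · filter_upwards [ae_exists_notMem] with x ⟨k, hk⟩
      refine tendsto_const_nhds.congr' ?_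
      filter_upwards [eventually_ge_atTop k] with m hm
      rw [(f_eventuallyEq κ (m := m) fun h => hk (A_anti (by omega) h)).fderiv_eq]
  refine tendsto_nhds_unique t1 (t2.neg.congr fun m => ?_)
  exact (byParts_lipschitz (lipschitz_fN hκ m) hφ hc v l).symm

/-- The classical derivative of `f κ` is its weak derivative on the open square. -/
lemma weak_deriv {κ : ℝ} (hκ : 0 ≤ κ) {φ : P → ℝ} (hφ : ContDiff ℝ ∞ φ)
    (hc : HasCompactSupport φ) (hs : tsupport φ ⊆ ball 0 1) (v : P) :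
    ∫ x in ball (0 : P) 1, fderiv ℝ φ x v • f κ x =
      -∫ x in ball (0 : P) 1, φ x • fderiv ℝ (f κ) x v := by
  have hdc : Continuous fun x => fderiv ℝ φ x v :=
    (hφ.continuous_fderiv (by simp)).clm_apply continuous_const
  have hdcs : HasCompactSupport fun x => fderiv ℝ φ x v := hc.fderiv_apply ℝ v
  have i1 : IntegrableOn (fun x => fderiv ℝ φ x v • f κ x) (ball (0 : P) 1) :=
    ((hdc.smul (continuous_f hκ)).integrable_of_hasCompactSupport hdcs.smul_right).integrableOn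
  obtain ⟨M, hM⟩ := hφ.continuous.bounded_above_of_compact_support hc
  have i2 : IntegrableOn (fun x => φ x • fderiv ℝ (f κ) x v) (ball (0 : P) 1) := by
    have h1 : Integrable (fderiv ℝ (f κ)) (volume.restrict (ball (0 : P) 1)) :=
      memLp_one_iff_integrable.1 (memLp_fderiv hκ le_rfl (by norm_num))
    exact (h1.apply_continuousLinearMap v).bdd_smul M hφ.continuous.aestronglyMeasurable
      (Eventually.of_forall hM)
  have z1 : ∀ x ∉ ball (0 : P) 1, φ x = 0 := fun x hx => by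
    by_contra h
    exact hx (hs (subset_tsupport _ h))
  have z2 : ∀ x ∉ ball (0 : P) 1, fderiv ℝ φ x = 0 := fun x hx => by
    by_contra h
    exact hx (hs (support_fderiv_subset ℝ h))
  have key : ∀ l : P →L[ℝ] ℝ, l (∫ x in ball (0 : P) 1, fderiv ℝ φ x v • f κ x) =
      l (-∫ x in ball (0 : P) 1, φ x • fderiv ℝ (f κ) x v) := by
    intro l
    rw [map_neg, ← l.integral_comp_comm i1, ← l.integral_comp_comm i2]
    simp only [map_smul, smul_eq_mul]
    rw [setIntegral_eq_integral_of_forall_compl_eq_zero (fun x hx => by simp [z2 x hx]),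
      setIntegral_eq_integral_of_forall_compl_eq_zero (fun x hx => by simp [z1 x hx])]
    exact weak_scalar hκ hφ hc hs v l
  exact Prod.ext (key (ContinuousLinearMap.fst ℝ ℝ ℝ)) (key (ContinuousLinearMap.snd ℝ ℝ ℝ))

lemma good_outer {κ : ℝ} (hκ : 0 ≤ κ) {x : P} (h1 : 1 / 2 < ‖x‖) (h2 : ‖x‖ < 1)
    (l : P →L[ℝ] ℝ) (hl : ∀ᶠ y in 𝓝 x, ‖y‖ = |l y|) :
    DifferentiableAt ℝ (f κ) x ∧ (fderiv ℝ (f κ) x).det = 1 := by
  have hx0 : l x ≠ 0 := by
    have := hl.self_of_nhds
    intro h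
    rw [h, abs_zero] at this
    linarith
  have he : f κ =ᶠ[𝓝 x] fun y => √(1 + κ / (l y) ^ 2) • y := by
    filter_upwards [hl, (isOpen_lt continuous_const continuous_norm).mem_nhds h1,
      (isOpen_lt continuous_norm continuous_const).mem_nhds h2] with y hy hy1 hy2
    rw [f_outer hκ (le_of_lt hy1), β_mid (le_of_lt hy1) (le_of_lt hy2), hy, sq_abs]
  have hpos : 0 < 1 + κ / (l x) ^ 2 := by positivity
  have d0 : HasDerivAt (fun t : ℝ => 1 + κ / t ^ 2) (-2 * κ / (l x) ^ 3) (l x) := by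
    have := (((hasDerivAt_pow 2 (l x)).fun_inv (pow_ne_zero 2 hx0)).const_mul κ).const_add 1
    refine this.congr_deriv ?_
    field_simp
    norm_num
    ring
  have d1 := d0.sqrt hpos.ne'
  have d2 := (d1.comp_hasFDerivAt x l.hasFDerivAt).smul (hasFDerivAt_id x)
  have d3 : HasFDerivAt (f κ) _ x := d2.congr_of_eventuallyEq he
  refine ⟨d3.differentiableAt, ?_⟩
  rw [d3.fderiv, det_eq]
  have hu : √(1 + κ / (l x) ^ 2) ^ 2 = 1 + κ / (l x) ^ 2 := Real.sq_sqrt hpos.le
  have hu0 : √(1 + κ / (l x) ^ 2) ≠ 0 := (Real.sqrt_pos.2 hpos).ne'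
  have hlx : l x = x.1 * l (1, 0) + x.2 * l (0, 1) := by
    have : x = x.1 • ((1, 0) : P) + x.2 • ((0, 1) : P) := by simp
    conv_lhs => rw [this]
    rw [map_add, map_smul, map_smul, smul_eq_mul, smul_eq_mul]
  simp only [Function.comp_apply, id, add_apply, smul_apply, ContinuousLinearMap.id_apply,
    ContinuousLinearMap.smulRight_apply, Prod.fst_add, Prod.snd_add, Prod.smul_fst, Prod.smul_snd,
    smul_eq_mul]
  generalize √(1 + κ / (l x) ^ 2) = u at hu hu0 ⊢
  have e : ∀ w : ℝ, (u * 1 + w * l (1, 0) * x.1) * (u * 1 + w * l (0, 1) * x.2) -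
      (u * 0 + w * l (0, 1) * x.1) * (u * 0 + w * l (1, 0) * x.2) = u ^ 2 + u * w * l x := by
    intro w
    rw [hlx]
    ring
  rw [e, hu]
  field_simp
  ring

lemma ae_ne_zero (l : P →L[ℝ] ℝ) (hl : l ≠ 0) : ∀ᵐ x : P, l x ≠ 0 := by
  rw [ae_iff]
  have := Measure.addHaar_submodule (volume : Measure P) (LinearMap.ker (l : P →ₗ[ℝ] ℝ)) (by
    rw [ne_eq, LinearMap.ker_eq_top]
    intro h
    exact hl (ContinuousLinearMap.coe_injective h))
  simp only [ne_eq, not_not]
  exact this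

lemma ae_generic : ∀ᵐ x : P, x.1 ≠ 0 ∧ x.2 ≠ 0 ∧ |x.1| ≠ |x.2| ∧ ‖x‖ ≠ 1 / 2 := by
  have n1 : ContinuousLinearMap.fst ℝ ℝ ℝ ≠ 0 := fun h => by
    simpa using congrArg (fun l : P →L[ℝ] ℝ => l (1, 0)) h
  have n2 : ContinuousLinearMap.snd ℝ ℝ ℝ ≠ 0 := fun h => by
    simpa using congrArg (fun l : P →L[ℝ] ℝ => l (0, 1)) h
  have n3 : ContinuousLinearMap.fst ℝ ℝ ℝ - ContinuousLinearMap.snd ℝ ℝ ℝ ≠ 0 := fun h => by
    simpa using congrArg (fun l : P →L[ℝ] ℝ => l (1, 0)) h
  have n4 : ContinuousLinearMap.fst ℝ ℝ ℝ + ContinuousLinearMap.snd ℝ ℝ ℝ ≠ 0 := fun h => by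
    simpa using congrArg (fun l : P →L[ℝ] ℝ => l (1, 0)) h
  have n5 : ∀ᵐ x : P, x ∉ sphere (0 : P) (1 / 2) :=
    measure_eq_zero_iff_ae_notMem.1 (Measure.addHaar_sphere volume _ _)
  filter_upwards [ae_ne_zero _ n1, ae_ne_zero _ n2, ae_ne_zero _ n3, ae_ne_zero _ n4, n5]
    with x h1 h2 h3 h4 h5
  refine ⟨h1, h2, fun h => ?_, by simpa using h5⟩
  rcases abs_eq_abs.1 h with h | h
  · exact h3 (by simp [h])
  · exact h4 (by simp [h])

lemma good_generic_outer {κ : ℝ} (hκ : 0 ≤ κ) {x : P} (h1 : 1 / 2 < ‖x‖) (h2 : ‖x‖ < 1)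
    (h3 : |x.1| ≠ |x.2|) : DifferentiableAt ℝ (f κ) x ∧ (fderiv ℝ (f κ) x).det = 1 := by
  have c1 : Continuous fun y : P => |y.1| := by fun_prop
  have c2 : Continuous fun y : P => |y.2| := by fun_prop
  rcases h3.lt_or_gt with h | h
  · refine good_outer hκ h1 h2 (ContinuousLinearMap.snd ℝ ℝ ℝ) ?_
    filter_upwards [(isOpen_lt c1 c2).mem_nhds h] with y hy
    exact max_eq_right (le_of_lt hy)
  · refine good_outer hκ h1 h2 (ContinuousLinearMap.fst ℝ ℝ ℝ) ?_
    filter_upwards [(isOpen_lt c2 c1).mem_nhds h] with y hy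
    exact max_eq_left (le_of_lt hy)

lemma good_level (m : ℕ) : ∀ κ : ℝ, 0 ≤ κ → ∀ᵐ x : P, ‖x‖ < 1 → x ∉ A m →
    DifferentiableAt ℝ (f κ) x ∧ (fderiv ℝ (f κ) x).det = 1 := by
  induction m with
  | zero =>
    intro κ _
    exact Eventually.of_forall fun x hx hA => absurd (mem_closedBall_zero_iff.2 hx.le) hA
  | succ m ih =>
    intro κ hκ
    have h1 := ae_all_iff.2 fun j : Bool × Bool => ae_affine (z j) (ih (4 * κ) (by linarith))
    filter_upwards [h1, ae_generic] with x hx ⟨g1, g2, g3, g4⟩ hx1 hA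
    rcases g4.lt_or_gt with h | h
    · obtain ⟨j, hj⟩ := exists_compat x
      have σne : ∀ b, σ b ≠ 0 := fun b hb => by simpa [hb] using abs_σ b
      have p1 : 0 < x.1 * σ j.1 := lt_of_le_of_ne hj.1 (mul_ne_zero g1 (σne _)).symm
      have p2 : 0 < x.2 * σ j.2 := lt_of_le_of_ne hj.2 (mul_ne_zero g2 (σne _)).symm
      have hw : ‖(4 : ℝ) • (x - z j)‖ < 1 :=
        max_lt (near_sign_lt p1 ((norm_fst_le x).trans_lt h))
          (near_sign_lt p2 ((norm_snd_le x).trans_lt h))
      obtain ⟨d1, d2⟩ := hx j hw fun h' => hA (mem_iUnion.2 ⟨j, h'⟩)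
      have c1 : Continuous fun x : P => x.1 * σ j.1 := by fun_prop
      have c2 : Continuous fun x : P => x.2 * σ j.2 := by fun_prop
      have he : f κ =ᶠ[𝓝 x] fun y =>
          s (4 * κ) • z j + (1 / 4 : ℝ) • f (4 * κ) ((4 : ℝ) • (y - z j)) := by
        filter_upwards [(isOpen_lt continuous_const c1).mem_nhds p1,
          (isOpen_lt continuous_const c2).mem_nhds p2,
          (isOpen_lt continuous_norm continuous_const).mem_nhds h] with y y1 y2 y3
        exact f_inner hκ (le_of_lt y3) ⟨le_of_lt y1, le_of_lt y2⟩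
      have d3 : HasFDerivAt (fun y : P => (4 : ℝ) • (y - z j))
          ((4 : ℝ) • ContinuousLinearMap.id ℝ P) x :=
        ((hasFDerivAt_id x).sub_const (z j)).const_smul (4 : ℝ)
      have d4 := ((d1.hasFDerivAt.comp x d3).const_smul (1 / 4 : ℝ)).const_add (s (4 * κ) • z j)
      have d5 : HasFDerivAt (f κ) _ x := d4.congr_of_eventuallyEq he
      refine ⟨d5.differentiableAt, ?_⟩
      have e : ∀ L : P →L[ℝ] P,
          (1 / 4 : ℝ) • L.comp ((4 : ℝ) • ContinuousLinearMap.id ℝ P) = L := by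
        intro L
        ext <;> simp
      rw [d5.fderiv, e, d2]
    · exact good_generic_outer hκ h hx1 g3

lemma ae_det {κ : ℝ} (hκ : 0 ≤ κ) :
    ∀ᵐ x ∂(volume.restrict (ball (0 : P) 1)), (fderiv ℝ (f κ) x).det = 1 := by
  rw [ae_restrict_iff' measurableSet_ball]
  filter_upwards [ae_all_iff.2 fun m => good_level m κ hκ, ae_exists_notMem] with x hx ⟨k, hk⟩ h
  exact (hx k (mem_ball_zero_iff.1 h) hk).2

end Pool.Agent.Lib.MP_69386a_an
end
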