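import Pool.Agent.Lib.MP_69386a_an.Deriv

/-!
No Lipschitz map with Jacobian one is close in `W^{1,1}` to the Ponomarev-type map.
-/

set_option autoImplicit false
open Filter Topology MeasureTheory Set Metric
open scoped NNReal ENNReal ContDiff

namespace Pool.Agent.Lib.MP_69386a_an

lemma notMem_A_one {x : P} (hx : 1 / 2 < ‖x‖) : x ∉ A 1 := by
  intro h
  obtain ⟨j, hj⟩ := mem_iUnion.1 h
  have h1 : ‖(4 : ℝ) • (x - z j)‖ ≤ 1 := mem_closedBall_zero_iff.1 hj
  have h2 := norm_sub_norm_le x (z j)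
  rw [norm_smul, Real.norm_of_nonneg (by norm_num)] at h1
  rw [norm_z] at h2
  linarith

lemma J_inner {x : P} (hx : ‖x‖ < 1 / 2) : 2 ≤ J (fN (3 / 4) 0) x := by
  have hs : s (4 * (3 / 4)) = 2 := by
    rw [s, show (1 : ℝ) + 4 * (3 / 4) = 2 ^ 2 by norm_num, Real.sqrt_sq (by norm_num)]
  have he : fN (3 / 4) 0 =ᶠ[𝓝 x] fun y => (2 : ℝ) • y := by
    filter_upwards [(isOpen_lt continuous_norm continuous_const).mem_nhds hx] with y hy
    simp only [fN, zero_add, Finset.range_one, Finset.sum_singleton]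
    rw [T, B, β_of_le_half (le_of_lt hy), hs]
    module
  have d : HasFDerivAt (fun y : P => (2 : ℝ) • y) ((2 : ℝ) • ContinuousLinearMap.id ℝ P) x :=
    (hasFDerivAt_id x).const_smul (2 : ℝ)
  have h1 : |x.1| < 1 / 2 := (norm_fst_le x).trans_lt hx
  have h2 := Real.one_sub_sq_div_two_le_cos (x := 2 * x.1)
  rw [abs_lt] at h1
  rw [J, W, he.fderiv_eq, he.eq_of_nhds, d.fderiv, det_eq, cut_eq_one (by linarith),
    fderiv_cut_inner (by linarith)]
  simp
  nlinarith

lemma main_real {g : P → P} {C : ℝ≥0} (hg : LipschitzOnWith C g (closedBall 0 (15 / 16)))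
    (hdet : ∀ᵐ x ∂(volume.restrict (ball (0 : P) 1)), (fderiv ℝ g x).det = 1)
    (i1 : Integrable (g - f (3 / 4)) (volume.restrict (ball (0 : P) 1)))
    (i2 : Integrable (fderiv ℝ g - fderiv ℝ (f (3 / 4))) (volume.restrict (ball (0 : P) 1))) :
    volume.real (ball (0 : P) (1 / 2)) ≤ (16 + 16 * K (3 / 4) 0) *
      ((∫ x in ball (0 : P) 1, ‖(g - f (3 / 4)) x‖) +
        ∫ x in ball (0 : P) 1, ‖(fderiv ℝ g - fderiv ℝ (f (3 / 4))) x‖) := by
  have hκ : (0 : ℝ) ≤ 3 / 4 := by norm_num
  have hK := K_pos hκ 0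
  obtain ⟨a1, a2⟩ := J_lipschitzOn hg
  obtain ⟨b1, b2⟩ := J_lipschitz (lipschitz_fN hκ 0)
  set E : P → ℝ := fun x => (16 + 16 * K (3 / 4) 0) *
    (‖(g - f (3 / 4)) x‖ + ‖(fderiv ℝ g - fderiv ℝ (f (3 / 4))) x‖) with hE
  have iE : IntegrableOn E (ball (0 : P) 1) := (i1.norm.add i2.norm).const_mul _
  have iE' : Integrable ((ball (0 : P) 1).indicator E) :=
    (integrable_indicator_iff measurableSet_ball).2 iE
  have E0 : ∀ x, 0 ≤ E x := fun x => by positivity
  have hpt : ∀ᵐ x : P, (ball (0 : P) (1 / 2)).indicator (fun _ => (1 : ℝ)) x ≤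
      (J (fN (3 / 4) 0) x - J g x) + (ball (0 : P) 1).indicator E x := by
    rw [ae_restrict_iff' measurableSet_ball] at hdet
    have hdet' := ae_det hκ
    rw [ae_restrict_iff' measurableSet_ball] at hdet'
    filter_upwards [hdet, hdet', ae_generic] with x h1 h2 ⟨_, _, _, g4⟩
    rcases g4.lt_or_gt with h | h
    · have hx1 : x ∈ ball (0 : P) 1 := mem_ball_zero_iff.2 (by linarith)
      rw [indicator_of_mem (mem_ball_zero_iff.2 h), indicator_of_mem hx1]
      have c1 := J_inner h
      have c2 : J g x ≤ 1 := by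
        rw [J, W, h1 hx1, cut_eq_one (by linarith), fderiv_cut_inner (by linarith)]
        simpa using Real.cos_le_one _
      linarith [E0 x]
    · rw [indicator_of_notMem (fun h' => by linarith [mem_ball_zero_iff.1 h'])]
      by_cases hx1 : x ∈ ball (0 : P) 1
      · rw [indicator_of_mem hx1]
        have he := f_eventuallyEq (3 / 4) (m := 0) (notMem_A_one h)
        have hD := norm_fderiv_f_le hκ (n := 0) (notMem_A_one h)
        rw [J, J, ← he.fderiv_eq, ← he.eq_of_nhds, h1 hx1, h2 hx1]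
        set a := (f (3 / 4) x).1
        set b := (g x).1
        set F := fderiv ℝ (f (3 / 4)) x
        set G := fderiv ℝ g x
        have hab : |a - b| ≤ ‖(g - f (3 / 4)) x‖ := by
          rw [abs_sub_comm]
          exact norm_fst_le (g x - f (3 / 4) x)
        have hFG : ‖(fderiv ℝ g - fderiv ℝ (f (3 / 4))) x‖ = ‖F - G‖ := norm_sub_rev _ _
        have t1 : |cut x * (Real.cos a - Real.cos b)| ≤ |a - b| := by
          rw [abs_mul, abs_of_nonneg (cut_nonneg x)]
          exact (mul_le_of_le_one_left (abs_nonneg _) (cut_le_one x)).trans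
            (Real.abs_cos_sub_cos_le a b)
        have t2 : |(Real.sin a - Real.sin b) * W x F| ≤ |a - b| * (16 * K (3 / 4) 0) := by
          rw [abs_mul]
          exact mul_le_mul (Real.abs_sin_sub_sin_le a b) ((abs_W_le x F).trans (by linarith))
            (abs_nonneg _) (abs_nonneg _)
        have t3 : |Real.sin b * W x (F - G)| ≤ 16 * ‖F - G‖ := by
          rw [abs_mul]
          exact (mul_le_of_le_one_left (abs_nonneg _) (Real.abs_sin_le_one b)).trans
            (abs_W_le x _)
        have e : cut x * Real.cos a * 1 + Real.sin a * W x F -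
            (cut x * Real.cos b * 1 + Real.sin b * W x G) =
            cut x * (Real.cos a - Real.cos b) + (Real.sin a - Real.sin b) * W x F +
              Real.sin b * W x (F - G) := by
          rw [← W_sub]
          ring
        rw [e]
        simp only [hE]
        rw [hFG]
        have u1 := neg_abs_le (cut x * (Real.cos a - Real.cos b))
        have u2 := neg_abs_le ((Real.sin a - Real.sin b) * W x F)
        have u3 := neg_abs_le (Real.sin b * W x (F - G))
        have u4 : |a - b| * (16 * K (3 / 4) 0) ≤ ‖(g - f (3 / 4)) x‖ * (16 * K (3 / 4) 0) :=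
          mul_le_mul_of_nonneg_right hab (by positivity)
        have u5 : 0 ≤ K (3 / 4) 0 * ‖F - G‖ := by positivity
        have u6 := norm_nonneg ((g - f (3 / 4)) x)
        nlinarith
      · have hx2 : 7 / 8 < ‖x‖ := by
          rw [mem_ball_zero_iff, not_lt] at hx1
          linarith
        rw [indicator_of_notMem hx1, J_outer _ hx2, J_outer _ hx2]
        simp
  have i0 : Integrable ((ball (0 : P) (1 / 2)).indicator (fun _ => (1 : ℝ))) :=
    (integrable_indicator_iff measurableSet_ball).2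
      (integrableOn_const measure_ball_lt_top.ne)
  have j1 : Integrable (fun x => J (fN (3 / 4) 0) x - J g x) := b1.sub a1
  have h := integral_mono_ae i0 (j1.add iE') hpt
  rw [integral_indicator measurableSet_ball, setIntegral_const, smul_eq_mul, mul_one] at h
  refine h.trans (le_of_eq ?_)
  simp only [Pi.add_apply]
  rw [integral_add j1 iE', integral_sub b1 a1, a2, b2, integral_indicator measurableSet_ball,
    integral_const_mul, integral_add i1.norm i2.norm]
  ring

/-- No sequence of maps that are continuous on the square, Lipschitz on a slightly smaller square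
and have Jacobian one almost everywhere converges to `f (3/4)` in `W^{1,p}`. -/
lemma not_approx {p : ℝ≥0∞} (hp : 1 ≤ p) (g : ℕ → P → P)
    (hc : ∀ k, ContinuousOn (g k) (ball 0 1))
    (hg : ∀ k, ∃ C, LipschitzOnWith C (g k) (closedBall 0 (15 / 16)))
    (hdet : ∀ k, ∀ᵐ x ∂(volume.restrict (ball (0 : P) 1)), (fderiv ℝ (g k) x).det = 1) :
    ¬ Tendsto (fun k => eLpNorm (g k - f (3 / 4)) p (volume.restrict (ball (0 : P) 1)) +
      eLpNorm (fderiv ℝ (g k) - fderiv ℝ (f (3 / 4))) p (volume.restrict (ball (0 : P) 1)))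
      atTop (𝓝 0) := by
  intro h
  have hκ : (0 : ℝ) ≤ 3 / 4 := by norm_num
  set μ : Measure P := volume.restrict (ball (0 : P) 1) with hμ
  have m1 : ∀ k, AEStronglyMeasurable (g k - f (3 / 4)) μ := fun k =>
    ((hc k).aestronglyMeasurable measurableSet_ball).sub (continuous_f hκ).aestronglyMeasurable
  have m2 : ∀ k, AEStronglyMeasurable (fderiv ℝ (g k) - fderiv ℝ (f (3 / 4))) μ := fun k =>
    (measurable_fderiv ℝ _).aestronglyMeasurable.sub (measurable_fderiv ℝ _).aestronglyMeasurable
  set c : ℝ≥0∞ := μ univ ^ (1 / (1 : ℝ≥0∞).toReal - 1 / p.toReal) with hcdef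
  have hc' : c ≠ ⊤ := by
    have h1 : μ univ ≠ ⊤ := by
      rw [hμ, Measure.restrict_apply_univ]
      exact measure_ball_lt_top.ne
    have h0 : μ univ ≠ 0 := by
      rw [hμ, Measure.restrict_apply_univ]
      exact (measure_ball_pos volume _ one_pos).ne'
    exact ENNReal.rpow_ne_top_of_ne_zero h0 h1
  have h1 : Tendsto (fun k => eLpNorm (g k - f (3 / 4)) 1 μ +
      eLpNorm (fderiv ℝ (g k) - fderiv ℝ (f (3 / 4))) 1 μ) atTop (𝓝 0) := by
    have h2 := ENNReal.Tendsto.mul_const h (Or.inr hc')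
    rw [zero_mul] at h2
    refine tendsto_of_tendsto_of_tendsto_of_le_of_le tendsto_const_nhds h2 (fun k => zero_le)
      fun k => ?_
    simp only [add_mul]
    exact add_le_add (eLpNorm_le_eLpNorm_mul_rpow_measure_univ hp (m1 k))
      (eLpNorm_le_eLpNorm_mul_rpow_measure_univ hp (m2 k))
  have h3 := (ENNReal.tendsto_toReal ENNReal.zero_ne_top).comp h1
  have h4 := h3.const_mul (16 + 16 * K (3 / 4) 0)
  rw [ENNReal.toReal_zero, mul_zero] at h4
  have hδ : 0 < volume.real (ball (0 : P) (1 / 2)) :=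
    ENNReal.toReal_pos (measure_ball_pos volume _ (by norm_num)).ne' measure_ball_lt_top.ne
  refine absurd (ge_of_tendsto h4 ?_) (not_le.2 hδ)
  filter_upwards [h1.eventually (gt_mem_nhds ENNReal.zero_lt_top)] with k hk
  rw [ENNReal.add_lt_top] at hk
  have i1 : Integrable (g k - f (3 / 4)) μ := memLp_one_iff_integrable.1 ⟨m1 k, hk.1⟩
  have i2 : Integrable (fderiv ℝ (g k) - fderiv ℝ (f (3 / 4))) μ :=
    memLp_one_iff_integrable.1 ⟨m2 k, hk.2⟩
  obtain ⟨C, hC⟩ := hg k
  refine (main_real hC (hdet k) i1 i2).trans (le_of_eq ?_)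
  simp only [Function.comp_apply]
  rw [ENNReal.toReal_add hk.1.ne hk.2.ne, eLpNorm_one_eq_lintegral_enorm,
    eLpNorm_one_eq_lintegral_enorm, integral_norm_eq_lintegral_enorm (m1 k),
    integral_norm_eq_lintegral_enorm (m2 k)]

/-- Piecewise affine maps on a locally finite family of closed convex pieces. -/
lemma piecewise_affine {g : P → P} (hc : ContinuousOn g (ball 0 1)) {ι : Type} [Countable ι]
    (S : ι → Set P) (L : ι → P →ᴬ[ℝ] P) (hcl : ∀ i, IsClosed (S i)) (hconv : ∀ i, Convex ℝ (S i))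
    (hcov : ⋃ i, S i = ball 0 1)
    (hlf : ∀ x ∈ ball (0 : P) 1, ∃ U ∈ 𝓝 x, {i | (S i ∩ U).Nonempty}.Finite)
    (hL : ∀ i, EqOn g (L i) (S i) ∧ (L i).contLinear.det = 1) :
    (∃ C, LipschitzOnWith C g (closedBall 0 (15 / 16))) ∧
      ∀ᵐ x ∂(volume.restrict (ball (0 : P) 1)), (fderiv ℝ g x).det = 1 := by
  have hsub : closedBall (0 : P) (15 / 16) ⊆ ball 0 1 := closedBall_subset_ball (by norm_num)
  constructor
  · have hfin : {i | (S i ∩ closedBall (0 : P) (15 / 16)).Nonempty}.Finite := by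
      refine (isCompact_closedBall (0 : P) (15 / 16)).induction_on
        (p := fun U => {i | (S i ∩ U).Nonempty}.Finite) (by simp) ?_ ?_ ?_
      · intro s t hst ht
        exact ht.subset fun i hi => hi.mono (inter_subset_inter_right _ hst)
      · intro s t hs ht
        refine (hs.union ht).subset fun i hi => ?_
        simpa [inter_union_distrib_left] using hi
      · intro x hx
        obtain ⟨U, hU, hU'⟩ := hlf x (hsub hx)
        exact ⟨U, mem_nhdsWithin_of_mem_nhds hU, hU'⟩
    obtain ⟨C, hC⟩ := (hfin.image fun i => ‖(L i).contLinear‖₊).bddAbove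
    refine ⟨C, lipschitzOnWith_of_closed_cover (convex_closedBall _ _) (hc.mono hsub) hfin S
      (fun i _ => hcl i) (fun x hx => ?_) fun i hi => ?_⟩
    · have := hsub hx
      rw [← hcov] at this
      obtain ⟨i, hi⟩ := mem_iUnion.1 this
      exact mem_iUnion₂.2 ⟨i, ⟨x, hi, hx⟩, hi⟩
    · refine LipschitzOnWith.of_dist_le_mul fun x hx y hy => ?_
      have h1 : (‖(L i).contLinear‖₊ : ℝ≥0) ≤ C := hC ⟨i, hi, rfl⟩
      rw [(hL i).1 hx, (hL i).1 hy, dist_eq_norm, dist_eq_norm, ← vsub_eq_sub,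
        ← (L i).contLinear_map_vsub, vsub_eq_sub]
      exact ((L i).contLinear.le_opNorm _).trans
        (mul_le_mul_of_nonneg_right (by exact_mod_cast h1) (norm_nonneg _))
  · rw [ae_restrict_iff' measurableSet_ball]
    have h1 : ∀ᵐ x : P, ∀ i, x ∉ frontier (S i) := ae_all_iff.2 fun i =>
      measure_eq_zero_iff_ae_notMem.1 ((hconv i).addHaar_frontier volume)
    filter_upwards [h1] with x hx hx1
    rw [← hcov] at hx1
    obtain ⟨i, hi⟩ := mem_iUnion.1 hx1
    have h2 : x ∈ interior (S i) := (mem_interior_iff_notMem_frontier hi).2 (hx i)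
    have he : g =ᶠ[𝓝 x] L i := by
      filter_upwards [mem_interior_iff_mem_nhds.1 h2] with y hy
      exact (hL i).1 hy
    rw [he.fderiv_eq, (L i).hasFDerivAt.fderiv, (hL i).2]

end Pool.Agent.Lib.MP_69386a_an
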